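import Pool.Agent.H459.AV.Stm2
import Pool.Graph.R_seed8.H437R2.Man.MWSel

/-!
# AV2 FS2 (for helper459): the size of `F(S, 2)`
-/

set_option autoImplicit false

open Polynomial IsDedekindDomain NumberField
open scoped Classical

namespace Pool.Agent.H225.AV2

open Pool.Agent.H459.AV

section
variable {F : Type} [Field F] [NumberField F]

/-- square valuations are even -/
lemma sq_iff_even (w : HeightOneSpectrum (𝓞 F)) (x : Fˣ) :
    (∃ z : F, w.valuation F (x : F) = w.valuation F z ^ 2) ↔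
      Even (Multiplicative.toAdd (w.valuationOfNeZero x)) := by
  constructor
  · rintro ⟨z, hz⟩
    have hz0 : z ≠ 0 := by
      rintro rfl
      rw [map_zero, zero_pow two_ne_zero] at hz
      exact x.ne_zero ((map_eq_zero _).1 hz)
    have h1 : w.valuationOfNeZero x = w.valuationOfNeZero (Units.mk0 z hz0) ^ 2 := by
      rw [← WithZero.coe_inj, WithZero.coe_pow, w.valuationOfNeZero_eq, w.valuationOfNeZero_eq, hz,
        Units.val_mk0]
    rw [h1, toAdd_pow, nsmul_eq_mul]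
    exact even_two.mul_right _
  · rintro ⟨n, hn⟩
    obtain ⟨π, hπ⟩ := w.valuation_exists_uniformizer F
    refine ⟨π ^ (-n), ?_⟩
    have h1 : w.valuationOfNeZero x = Multiplicative.ofAdd (n + n) := by
      rw [← hn]
      rfl
    rw [← w.valuationOfNeZero_eq, h1, map_zpow₀, hπ]
    rw [← WithZero.exp, ← WithZero.exp_zsmul, ← WithZero.exp_nsmul]
    congr 1
    simp
    ring

/-- the parity of the valuation -/
noncomputable def par (w : HeightOneSpectrum (𝓞 F)) : Fˣ →* Multiplicative (ZMod 2) :=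
  (AddMonoidHom.toMultiplicative (Int.castAddHom (ZMod 2))).comp w.valuationOfNeZero

lemma mem_ker_par (w : HeightOneSpectrum (𝓞 F)) (x : Fˣ) :
    par w x = 1 ↔ Even (Multiplicative.toAdd (w.valuationOfNeZero x)) := by
  have h1 : par w x = Multiplicative.ofAdd
      ((Multiplicative.toAdd (w.valuationOfNeZero x) : ℤ) : ZMod 2) := rfl
  rw [h1, ofAdd_eq_one, ZMod.intCast_zmod_eq_zero_iff_dvd, even_iff_two_dvd]
  rfl

lemma mem_Hb (b : 𝓞 F) (x : Fˣ) : x ∈ Hb b ↔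
    ∀ w : HeightOneSpectrum (𝓞 F), b ∉ w.asIdeal → par w x = 1 := by
  have h1 : x ∈ Hb b ↔ ∀ w : HeightOneSpectrum (𝓞 F), b ∉ w.asIdeal →
    ∃ z : F, w.valuation F (x : F) = w.valuation F z ^ 2 := Iff.rfl
  rw [h1]
  refine forall_congr' fun w => forall_congr' fun _ => ?_
  rw [sq_iff_even, mem_ker_par]

lemma one_not (w : HeightOneSpectrum (𝓞 F)) : (1 : 𝓞 F) ∉ w.asIdeal := fun h =>
  w.isPrime.ne_top ((Ideal.eq_top_iff_one _).2 h)

lemma sqr_le : Sqr F ≤ Hb (1 : 𝓞 F) := by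
  rintro x ⟨y, rfl⟩
  intro w _
  refine ⟨y, ?_⟩
  rw [powMonoidHom_apply, Units.val_pow_eq_pow_val, map_pow]

lemma hb_le (b : 𝓞 F) : Hb (1 : 𝓞 F) ≤ Hb b := fun _ hx w _ => hx w (one_not w)

/-- the case without primes -/
lemma fin_one : (Sqr F).relIndex (Hb (1 : 𝓞 F)) ≠ 0 := by
  obtain ⟨T, hT0, hT⟩ := Pool.Agent.H437R2.Man.MW.sel_finite (K := F) ∅ Set.finite_empty
  have hT' : ∀ a : Hb (1 : 𝓞 F), ∃ t : T, ∃ b : F, b ≠ 0 ∧ ((a : Fˣ) : F) = t * b ^ 2 := by
    intro a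
    obtain ⟨t, ht, b, hb⟩ := hT (a : Fˣ) fun v _ => by
      rw [← mem_ker_par]
      exact (mem_Hb _ _).1 a.2 v (one_not v)
    exact ⟨⟨t, ht⟩, b, hb⟩
  choose τ β hβ0 hβ using hT'
  have hfin : Finite (Hb (1 : 𝓞 F) ⧸ (Sqr F).subgroupOf (Hb (1 : 𝓞 F))) := by
    refine Finite.of_injective (β := T) (fun q => τ q.out) fun q q' h => ?_
    simp only at h
    rw [← QuotientGroup.out_eq' q, ← QuotientGroup.out_eq' q', QuotientGroup.eq,
      Subgroup.mem_subgroupOf]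
    refine ⟨(Units.mk0 _ (hβ0 q.out))⁻¹ * Units.mk0 _ (hβ0 q'.out), ?_⟩
    rw [powMonoidHom_apply]
    apply Units.ext
    have h1 := hβ q.out
    have h2 := hβ q'.out
    rw [← h] at h2
    have h3 : ((τ q.out : T) : F) ≠ 0 := hT0 _ (τ q.out).2
    have h4 := hβ0 q.out
    rw [Subgroup.coe_mul, Subgroup.coe_inv, Units.val_mul, Units.val_inv_eq_inv_val, h1, h2,
      Units.val_pow_eq_pow_val, Units.val_mul, Units.val_inv_eq_inv_val, Units.val_mk0, Units.val_mk0]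
    field_simp
  rw [Subgroup.relIndex, Subgroup.index]
  exact Nat.card_pos.ne'

end

theorem fs2 : S_FS2 := by
  intro F _ _
  refine ⟨(Sqr F).relIndex (Hb (1 : 𝓞 F)), fun b hb => ?_⟩
  have hfin : {w : HeightOneSpectrum (𝓞 F) | b ∈ w.asIdeal}.Finite := by
    have h1 := Ideal.finite_factors (I := Ideal.span {b}) (by simpa using hb)
    refine h1.subset fun w hw => ?_
    rw [Set.mem_ofPred_eq] at hw ⊢
    exact Ideal.dvd_iff_le.2 ((Ideal.span_singleton_le_iff_mem _).2 hw)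
  have hfin' : Finite {w : HeightOneSpectrum (𝓞 F) | b ∈ w.asIdeal} := hfin
  obtain ⟨Ψ, hΨ⟩ : ∃ Ψ : Fˣ →* ({w : HeightOneSpectrum (𝓞 F) | b ∈ w.asIdeal} →
      Multiplicative (ZMod 2)), ∀ x w, Ψ x w = par w.1 x :=
    ⟨MonoidHom.pi fun w => par w.1, fun _ _ => rfl⟩
  have heq : Hb (1 : 𝓞 F) = Hb b ⊓ Ψ.ker := by
    ext x
    rw [Subgroup.mem_inf, mem_Hb, mem_Hb, MonoidHom.mem_ker]
    constructor
    · intro h
      refine ⟨fun w _ => h w (one_not w), funext fun w => ?_⟩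
      rw [hΨ]
      exact h w.1 (one_not _)
    · rintro ⟨h1, h2⟩ w -
      by_cases hw : b ∈ w.asIdeal
      · have h3 := congrFun h2 ⟨w, hw⟩
        rwa [hΨ] at h3
      · exact h1 w hw
  have hcard : (Hb (1 : 𝓞 F)).relIndex (Hb b) ≤
      2 ^ {w : HeightOneSpectrum (𝓞 F) | b ∈ w.asIdeal}.ncard ∧
      (Hb (1 : 𝓞 F)).relIndex (Hb b) ≠ 0 := by
    rw [heq, Subgroup.inf_relIndex_left, Subgroup.relIndex_ker]
    refine ⟨?_, Nat.card_pos.ne'⟩
    refine (Nat.card_le_card_of_injective (fun x : (Hb b).map Ψ =>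
      (x : {w : HeightOneSpectrum (𝓞 F) | b ∈ w.asIdeal} → Multiplicative (ZMod 2)))
        Subtype.val_injective).trans ?_
    rw [Nat.card_fun, Nat.card_coe_set_eq]
    have : Nat.card (Multiplicative (ZMod 2)) = 2 := by
      rw [Nat.card_congr Multiplicative.toAdd, Nat.card_zmod]
    rw [this]
  have hmul := Subgroup.relIndex_mul_relIndex (Sqr F) (Hb (1 : 𝓞 F)) (Hb b) sqr_le (hb_le b)
  rw [← hmul]
  exact ⟨mul_ne_zero fin_one hcard.2, Nat.mul_le_mul_left _ hcard.1⟩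

end Pool.Agent.H225.AV2
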