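import Pool.Agent.H459.AV.Stm2

/-!
# The number of the prime divisors (by helper894, for helper459)
-/

set_option autoImplicit false

open Polynomial IsDedekindDomain NumberField
open scoped Classical

namespace Pool.Agent.H894.AV2

open Pool.Agent.H459.AV

theorem omg : Pool.Agent.H459.AV.S_OMG := by
  intro F _ _
  have hfin : {w : HeightOneSpectrum (𝓞 F) | Ideal.absNorm w.asIdeal ≤ 15}.Finite := by
    have h1 : {I : Ideal (𝓞 F) | Ideal.absNorm I ≤ 15}.Finite :=
      Ideal.finite_setOfPred_absNorm_le 15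
    refine Set.Finite.of_finite_image (f := fun w : HeightOneSpectrum (𝓞 F) => w.asIdeal)
      (h1.subset ?_) ?_
    · rintro _ ⟨w, hw, rfl⟩
      exact hw
    · intro w _ w' _ h
      exact HeightOneSpectrum.ext h
  refine ⟨16 ^ hfin.toFinset.card, fun b hb => ?_⟩
  have hb0 : Ideal.span {b} ≠ (0 : Ideal (𝓞 F)) := by
    rw [Ideal.zero_eq_bot, Ne, Ideal.span_singleton_eq_bot]
    exact hb
  have hS : {w : HeightOneSpectrum (𝓞 F) | b ∈ w.asIdeal}.Finite := by
    have h1 := Ideal.finite_factors hb0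
    refine h1.subset ?_
    intro w hw
    exact Ideal.dvd_span_singleton.2 hw
  refine ⟨hS, ?_⟩
  rw [Set.ncard_eq_toFinset_card _ hS]
  set S := hS.toFinset with hSdef
  have h1 : ∏ w ∈ S, Ideal.absNorm w.asIdeal ≤ Ideal.absNorm (Ideal.span {b}) := by
    have h2 : ∏ w ∈ S, w.asIdeal ∣ Ideal.span {b} := by
      have h3 : ∏ w ∈ S, w.asIdeal = ∏ I ∈ S.image (fun w => w.asIdeal), I := by
        rw [Finset.prod_image]
        intro w _ w' _ h
        exact HeightOneSpectrum.ext h
      rw [h3]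
      refine Finset.prod_primes_dvd _ ?_ ?_
      · intro I hI
        obtain ⟨w, -, rfl⟩ := Finset.mem_image.1 hI
        exact w.prime
      · intro I hI
        obtain ⟨w, hw, rfl⟩ := Finset.mem_image.1 hI
        rw [hSdef, Set.Finite.mem_toFinset] at hw
        exact Ideal.dvd_span_singleton.2 hw
    rw [← map_prod]
    refine Nat.le_of_dvd ?_ (map_dvd Ideal.absNorm h2)
    exact Nat.pos_of_ne_zero (fun h => hb0 (Ideal.absNorm_eq_zero_iff.1 h))
  have h2 : ∀ w ∈ S, 16 ≤ (if w ∈ hfin.toFinset then 16 else 1) * Ideal.absNorm w.asIdeal := by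
    intro w _
    by_cases h : w ∈ hfin.toFinset
    · rw [if_pos h]
      have h3 : Ideal.absNorm w.asIdeal ≠ 0 := fun h3 => w.ne_bot (Ideal.absNorm_eq_zero_iff.1 h3)
      omega
    · rw [if_neg h, one_mul]
      rw [Set.Finite.mem_toFinset, Set.mem_ofPred_eq] at h
      omega
  have h3 : ∏ w ∈ S, (if w ∈ hfin.toFinset then 16 else 1) ≤ 16 ^ hfin.toFinset.card := by
    rw [Finset.prod_ite, Finset.prod_const_one, mul_one, Finset.prod_const]
    refine Nat.pow_le_pow_right (by norm_num) (Finset.card_le_card ?_)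
    intro w hw
    exact (Finset.mem_filter.1 hw).2
  calc 16 ^ S.card = ∏ _w ∈ S, 16 := by rw [Finset.prod_const]
    _ ≤ ∏ w ∈ S, (if w ∈ hfin.toFinset then 16 else 1) * Ideal.absNorm w.asIdeal :=
        Finset.prod_le_prod' h2
    _ = (∏ w ∈ S, (if w ∈ hfin.toFinset then 16 else 1)) * ∏ w ∈ S, Ideal.absNorm w.asIdeal :=
        Finset.prod_mul_distrib
    _ ≤ 16 ^ hfin.toFinset.card * Ideal.absNorm (Ideal.span {b}) := Nat.mul_le_mul h3 h1

end Pool.Agent.H894.AV2
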