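import Pool.Agent.H459.AV.Fin
import Pool.Agent.H459.AV.Bfs2
import Pool.Agent.H459.AV.Bomg

/-!
# The curves with a point of order two, and the average over all elliptic curves (helper459)
-/

set_option autoImplicit false
set_option linter.all false

open Polynomial IsDedekindDomain Matrix NumberField
open scoped Classical

namespace Pool.Agent.H459.AV

open Pool.Agent.N783.PF
open Pool.Agent.N874.PP (sW)
open Pool.Agent.TH115.GD (Pt)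
open Pool.Agent.H459.UF (cu cu_monic cu_deg)
open Pool.Agent.N61.PF (crv_finite exists_B)

section

variable {F : Type} [Field F] [NumberField F]

/-- The parity of the valuations. -/
theorem par_iso {α β : 𝓞 F} {X y : F} (h : y ^ 2 = X * (X ^ 2 + (α : F) * X + (β : F))) (hX : X ≠ 0)
    {w : HeightOneSpectrum (𝓞 F)} (hw : β ∉ w.asIdeal) :
    ∃ z : F, w.valuation F X = w.valuation F z ^ 2 := by
  have vα : w.valuation F (α : F) ≤ 1 := w.valuation_le_one α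
  have vβ : w.valuation F (β : F) = 1 := by
    refine le_antisymm (w.valuation_le_one β) (not_lt.1 fun h1 => hw ?_)
    exact (HeightOneSpectrum.valuation_lt_one_iff_mem w β).1 h1
  have v0 : w.valuation F X ≠ 0 := (Valuation.ne_zero_iff _).2 hX
  have hv := congrArg (w.valuation F) h
  rw [map_pow, map_mul] at hv
  rcases lt_trichotomy (w.valuation F X) 1 with h1 | h1 | h1
  · refine ⟨y, ?_⟩
    have h2 : w.valuation F (X ^ 2 + (α : F) * X + (β : F)) = 1 := by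
      rw [Valuation.map_add_eq_of_lt_right, vβ]
      rw [vβ]
      refine lt_of_le_of_lt (Valuation.map_add _ _ _) (max_lt ?_ ?_)
      · rw [map_pow]
        exact pow_lt_one' h1 two_ne_zero
      · rw [map_mul]
        exact lt_of_le_of_lt (mul_le_mul' vα le_rfl) (by rw [one_mul]; exact h1)
    rw [hv, h2, mul_one]
  · exact ⟨1, by rw [h1, map_one, one_pow]⟩
  · refine ⟨y / X, ?_⟩
    have h2 : w.valuation F (X ^ 2 + (α : F) * X + (β : F)) = w.valuation F X ^ 2 := by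
      rw [add_assoc, Valuation.map_add_eq_of_lt_left, map_pow]
      rw [map_pow]
      refine lt_of_le_of_lt (Valuation.map_add _ _ _) (max_lt ?_ ?_)
      · rw [map_mul, sq]
        exact lt_of_le_of_lt (mul_le_mul' vα le_rfl) (by
          rw [one_mul]
          exact lt_mul_of_one_lt_right (zero_lt_iff.2 v0) h1)
      · rw [vβ]
        exact one_lt_pow₀ h1 two_ne_zero
    rw [map_div₀, div_pow, hv, h2, ← pow_succ']
    field_simp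

theorem sqr_le_hb (b : 𝓞 F) : Sqr F ≤ Hb b := by
  rintro _ ⟨y, rfl⟩ w _
  exact ⟨(y : F), by
    show w.valuation F ((y ^ 2 : Fˣ) : F) = _
    rw [Units.val_pow_eq_pow_val, map_pow]⟩

theorem norm_elt {x : 𝓞 F} (hx : x ≠ 0) {ρ : ℝ} (hb : Bd (x : F) ρ) :
    (Ideal.absNorm (Ideal.span {x}) : ℝ) ≤ ρ ^ Module.finrank ℚ F :=
  (Pool.Agent.N490.PF.norm_ge (Ideal.mem_span_singleton_self x) hx hb).2

end

/-- The rank of a curve with a point of order two. -/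
theorem rk_red (hI : S_ISO) (F : Type) [Field F] [NumberField F] : ∃ C : ℕ, 1 ≤ C ∧
    ∀ (R : ℝ), 1 ≤ R → ∀ p : 𝓞 F × 𝓞 F, 4 * p.1 ^ 3 + 27 * p.2 ^ 2 ≠ 0 →
    (∀ σ : F →+* ℂ, ‖σ (p.1 : F)‖ ≤ 2 * R ^ 2 ∧ ‖σ (p.2 : F)‖ ≤ R ^ 3) →
    ¬ Irreducible (cu (p.1 : F) (p.2 : F)) →
    (2 : ℝ) ^ rk p ≤ C * R ^ Module.finrank ℚ F := by
  obtain ⟨C₁, hC₁⟩ := Pool.Agent.H225.AV2.fs2 F
  obtain ⟨C₂, hC₂⟩ := Pool.Agent.H894.AV2.omg F
  obtain ⟨d, hd⟩ : ∃ d, d = Module.finrank ℚ F := ⟨_, rfl⟩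
  rw [← hd]
  obtain ⟨C, hC⟩ : ∃ C : ℕ, C = C₁ ^ 8 * C₂ ^ 2 * 35 ^ (2 * d) + 1 := ⟨_, rfl⟩
  refine ⟨C, by omega, fun R hR p hΔ hbd hirr => ?_⟩
  have hR0 : 0 < R := by linarith
  obtain ⟨r, hr⟩ := exists_root hirr
  obtain ⟨a, ha⟩ : ∃ a, a = p.1 := ⟨_, rfl⟩
  obtain ⟨b, hb⟩ : ∃ b, b = p.2 := ⟨_, rfl⟩
  rw [← ha, ← hb] at hΔ hr
  have hbd' : ∀ σ : F →+* ℂ, ‖σ (a : F)‖ ≤ 2 * R ^ 2 ∧ ‖σ (r : F)‖ ≤ 3 * R := by
    intro σ
    refine ⟨by rw [ha]; exact (hbd σ).1, root_le hR0 (hbd σ).1 (hbd σ).2 ?_⟩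
    have h4 := congrArg (fun z : 𝓞 F => σ (algebraMap (𝓞 F) F z)) hr
    simp only [map_add, map_mul, map_pow, map_zero] at h4
    rw [ha, hb] at h4
    exact h4
  obtain ⟨b₁, hb₁⟩ : ∃ b₁ : 𝓞 F, b₁ = 3 * r ^ 2 + a := ⟨_, rfl⟩
  obtain ⟨b₂, hb₂⟩ : ∃ b₂ : 𝓞 F, b₂ = -(3 * r ^ 2 + 4 * a) := ⟨_, rfl⟩
  have hfac : 4 * a ^ 3 + 27 * b ^ 2 = -(b₁ ^ 2 * b₂) := by
    have : b = -(r ^ 3 + a * r) := by linear_combination hr
    rw [this, hb₁, hb₂]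
    ring
  have hb₁0 : b₁ ≠ 0 := by
    rintro h0
    apply hΔ
    rw [hfac, h0]
    ring
  have hb₂0 : b₂ ≠ 0 := by
    rintro h0
    apply hΔ
    rw [hfac, h0]
    ring
  have hB1 : Bd (b₁ : F) (35 * R ^ 2) := by
    intro σ
    have e : σ (b₁ : F) = 3 * σ (r : F) ^ 2 + σ (a : F) := by
      rw [hb₁]
      show σ (algebraMap (𝓞 F) F (3 * r ^ 2 + a)) = _
      simp only [map_add, map_mul, map_pow, map_ofNat]
    rw [e]
    have h1 := (hbd' σ).1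
    have h2 := (hbd' σ).2
    have h3 : ‖3 * σ (r : F) ^ 2‖ ≤ 27 * R ^ 2 := by
      rw [norm_mul, norm_pow]
      have : ‖(3 : ℂ)‖ = 3 := by norm_num
      rw [this]
      nlinarith [norm_nonneg (σ (r : F))]
    refine (norm_add_le _ _).trans ?_
    nlinarith
  have hB2 : Bd (b₂ : F) (35 * R ^ 2) := by
    intro σ
    have e : σ (b₂ : F) = -(3 * σ (r : F) ^ 2 + 4 * σ (a : F)) := by
      rw [hb₂]
      show σ (algebraMap (𝓞 F) F (-(3 * r ^ 2 + 4 * a))) = _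
      simp only [map_add, map_mul, map_pow, map_ofNat, map_neg]
    rw [e, norm_neg]
    have h1 := (hbd' σ).1
    have h2 := (hbd' σ).2
    have h3 : ‖3 * σ (r : F) ^ 2‖ ≤ 27 * R ^ 2 := by
      rw [norm_mul, norm_pow]
      have : ‖(3 : ℂ)‖ = 3 := by norm_num
      rw [this]
      nlinarith [norm_nonneg (σ (r : F))]
    have h4 : ‖4 * σ (a : F)‖ ≤ 8 * R ^ 2 := by
      rw [norm_mul]
      have : ‖(4 : ℂ)‖ = 4 := by norm_num
      rw [this]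
      nlinarith
    refine (norm_add_le _ _).trans ?_
    nlinarith
  obtain ⟨n₁, hn₁⟩ : ∃ n₁, n₁ = (Sqr F).relIndex (Hb b₁) := ⟨_, rfl⟩
  obtain ⟨n₂, hn₂⟩ : ∃ n₂, n₂ = (Sqr F).relIndex (Hb b₂) := ⟨_, rfl⟩
  have key : ∀ (β : 𝓞 F) (hβ : β ≠ 0) (hB : Bd (β : F) (35 * R ^ 2)),
      (((Sqr F).relIndex (Hb β) : ℕ) : ℝ) ^ 4 ≤ C₁ ^ 4 * C₂ * (35 * R ^ 2) ^ d := by
    intro β hβ hB
    obtain ⟨-, h1⟩ := hC₁ β hβ
    obtain ⟨-, h2⟩ := hC₂ β hβ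
    have h3 := norm_elt hβ hB
    rw [← hd] at h3
    obtain ⟨ω, hω⟩ : ∃ ω, ω = {w : HeightOneSpectrum (𝓞 F) | β ∈ w.asIdeal}.ncard := ⟨_, rfl⟩
    rw [← hω] at h1 h2
    have h4 : (((Sqr F).relIndex (Hb β) : ℕ) : ℝ) ≤ C₁ * 2 ^ ω := by exact_mod_cast h1
    have h5 : (16 : ℝ) ^ ω ≤ C₂ * (Ideal.absNorm (Ideal.span {β}) : ℝ) := by exact_mod_cast h2
    calc (((Sqr F).relIndex (Hb β) : ℕ) : ℝ) ^ 4 ≤ (C₁ * 2 ^ ω) ^ 4 :=
          pow_le_pow_left₀ (Nat.cast_nonneg _) h4 4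
      _ = C₁ ^ 4 * 16 ^ ω := by
          rw [mul_pow, ← pow_mul, mul_comm ω 4, pow_mul]
          norm_num
      _ ≤ C₁ ^ 4 * (C₂ * (Ideal.absNorm (Ideal.span {β}) : ℝ)) :=
          mul_le_mul_of_nonneg_left h5 (by positivity)
      _ ≤ C₁ ^ 4 * (C₂ * (35 * R ^ 2) ^ d) := by gcongr
      _ = _ := by ring
  obtain ⟨W, hW⟩ : ∃ W : WeierstrassCurve.Affine F, W = ((sW (a : F) (b : F)).baseChange F).toAffine :=
    ⟨_, rfl⟩
  obtain ⟨W', hW'⟩ : ∃ W' : WeierstrassCurve.Affine F,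
    W' = (⟨0, -6 * (r : F), 0, -(3 * (r : F) ^ 2 + 4 * (a : F)), 0⟩ : WeierstrassCurve F).toAffine :=
    ⟨_, rfl⟩
  have w1 : W.a₁ = 0 := by rw [hW]; exact map_zero _
  have w2 : W.a₂ = 0 := by rw [hW]; exact map_zero _
  have w3 : W.a₃ = 0 := by rw [hW]; exact map_zero _
  have w4 : W.a₄ = (a : F) := by rw [hW]; rfl
  have w6 : W.a₆ = (b : F) := by rw [hW]; rfl
  have v1 : W'.a₁ = 0 := by rw [hW']
  have v2 : W'.a₂ = -6 * (r : F) := by rw [hW']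
  have v3 : W'.a₃ = 0 := by rw [hW']
  have v4 : W'.a₄ = -(3 * (r : F) ^ 2 + 4 * (a : F)) := by rw [hW']
  have v6 : W'.a₆ = 0 := by rw [hW']
  have hrF : (r : F) ^ 3 + (a : F) * (r : F) + (b : F) = 0 := by
    have h4 := congrArg (algebraMap (𝓞 F) F) hr
    simp only [map_add, map_mul, map_pow, map_zero] at h4
    exact h4
  have hb₁F : (b₁ : F) = 3 * (r : F) ^ 2 + (a : F) := by
    rw [hb₁]
    show algebraMap (𝓞 F) F (3 * r ^ 2 + a) = _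
    simp only [map_add, map_mul, map_pow, map_ofNat]
  have hb₂F : (b₂ : F) = -(3 * (r : F) ^ 2 + 4 * (a : F)) := by
    rw [hb₂]
    show algebraMap (𝓞 F) F (-(3 * r ^ 2 + 4 * a)) = _
    simp only [map_add, map_mul, map_pow, map_ofNat, map_neg]
  have hself : ∀ β : 𝓞 F, β ≠ 0 → ∃ u ∈ Hb β, (u : F) = (β : F) := by
    intro β hβ
    have h0 : (β : F) ≠ 0 := fun h => hβ (RingOfIntegers.coe_injective (h.trans (map_zero _).symm))
    refine ⟨Units.mk0 (β : F) h0, fun w hw => ⟨1, ?_⟩, rfl⟩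
    rw [Units.val_mk0, map_one, one_pow]
    refine le_antisymm (w.valuation_le_one β) (not_lt.1 fun h1 => hw ?_)
    exact (HeightOneSpectrum.valuation_lt_one_iff_mem w β).1 h1
  obtain ⟨T, hT1, hT2⟩ := hI F (a : F) (b : F) (r : F) W W' w1 w2 w3 w4 w6 v1 v2 v3 v4 v6 hrF
    (Hb b₁) (Hb b₂) (sqr_le_hb b₁) (sqr_le_hb b₂) (by rw [← hb₁F]; exact hself b₁ hb₁0)
    (by rw [← hb₂F]; exact hself b₂ hb₂0) (by
      intro x y hxy u hu w hw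
      have h7 := (WeierstrassCurve.Affine.equation_iff x y).1 hxy.1
      rw [w1, w2, w3, w4, w6] at h7
      refine par_iso (α := 3 * r) (β := b₁) (X := (u : F)) (y := y) ?_ u.ne_zero hw
      have e : ((3 * r : 𝓞 F) : F) = 3 * (r : F) := by
        show algebraMap (𝓞 F) F (3 * r) = _
        rw [map_mul, map_ofNat]
      rw [e, hb₁F, hu]
      linear_combination h7 + hrF) (by
      intro x y hxy u hu w hw
      have h7 := (WeierstrassCurve.Affine.equation_iff x y).1 hxy.1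
      rw [v1, v2, v3, v4, v6] at h7
      refine par_iso (α := -6 * r) (β := b₂) (X := (u : F)) (y := y) ?_ u.ne_zero hw
      have e : ((-6 * r : 𝓞 F) : F) = -6 * (r : F) := by
        show algebraMap (𝓞 F) F (-6 * r) = _
        rw [map_mul, map_neg, map_ofNat]
      rw [e, hb₂F, hu]
      linear_combination h7) (hC₁ b₁ hb₁0).1 (hC₁ b₂ hb₂0).1
  have hdF : 4 * (a : F) ^ 3 + 27 * (b : F) ^ 2 ≠ 0 := by
    intro h0
    apply hΔ
    apply RingOfIntegers.coe_injective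
    show algebraMap (𝓞 F) F (4 * a ^ 3 + 27 * b ^ 2) = algebraMap (𝓞 F) F 0
    rw [map_zero, ← h0]
    simp only [map_add, map_mul, map_pow, map_ofNat]
  have hrk : 2 ^ rk p ≤ (Sqr F).relIndex (Hb b₁) * (Sqr F).relIndex (Hb b₂) := by
    unfold rk
    rw [← ha, ← hb]
    subst hW
    exact Pool.Agent.W505.RK.rkb _ (fg_pt hdF) _ T hT1 hT2
  rw [← hn₁, ← hn₂] at hrk
  have k1 := key b₁ hb₁0 hB1
  have k2 := key b₂ hb₂0 hB2
  rw [← hn₁] at k1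
  rw [← hn₂] at k2
  have h1 : (2 : ℝ) ^ rk p ≤ (n₁ : ℝ) * n₂ := by exact_mod_cast hrk
  have h2 : ((n₁ : ℝ) * n₂) ^ 4 ≤ (C * R ^ d) ^ 4 := by
    have hC' : (C₁ : ℝ) ^ 8 * C₂ ^ 2 * 35 ^ (2 * d) ≤ C := by
      rw [hC]
      push_cast
      linarith
    have hC1 : (1 : ℝ) ≤ C := by
      rw [hC]
      push_cast
      have : (0 : ℝ) ≤ (C₁ : ℝ) ^ 8 * C₂ ^ 2 * 35 ^ (2 * d) := by positivity
      linarith
    calc ((n₁ : ℝ) * n₂) ^ 4 = (n₁ : ℝ) ^ 4 * (n₂ : ℝ) ^ 4 := mul_pow _ _ _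
      _ ≤ (C₁ ^ 4 * C₂ * (35 * R ^ 2) ^ d) * (C₁ ^ 4 * C₂ * (35 * R ^ 2) ^ d) :=
          mul_le_mul k1 k2 (by positivity) (by positivity)
      _ = (C₁ : ℝ) ^ 8 * C₂ ^ 2 * 35 ^ (2 * d) * R ^ (4 * d) := by
          rw [mul_pow]
          ring
      _ ≤ C * R ^ (4 * d) := mul_le_mul_of_nonneg_right hC' (by positivity)
      _ ≤ (C : ℝ) ^ 4 * R ^ (4 * d) := by
          refine mul_le_mul_of_nonneg_right ?_ (by positivity)
          exact le_self_pow₀ hC1 (by norm_num)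
      _ = _ := by ring
  have h3 : (n₁ : ℝ) * n₂ ≤ C * R ^ d :=
    le_of_pow_le_pow_left₀ (by norm_num) (by positivity) h2
  exact h1.trans h3

/-- **The average over all elliptic curves over a number field.** -/
theorem all (hI : S_ISO) (F : Type) [Field F] [NumberField F] :
    (∀ Y : ℝ, {p : 𝓞 F × 𝓞 F | Crv Y p}.Finite) ∧
    (∀ p : 𝓞 F × 𝓞 F, NoTwo p → Finite (Sel2 (sW (p.1 : F) (p.2 : F))) ∧ 2 ^ rk p ≤ s2 p) ∧
    ∃ C : ℝ, 0 < C ∧ ∃ Y₀ : ℝ, ∀ Y ≥ Y₀, 0 < {p : 𝓞 F × 𝓞 F | Crv Y p}.ncard ∧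
    (∀ T : Finset (𝓞 F × 𝓞 F), (∀ p ∈ T, Crv Y p) →
      ∑ p ∈ T, (2 : ℝ) ^ rk p ≤ C * ({p : 𝓞 F × 𝓞 F | Crv Y p}.ncard : ℝ) ∧
      ∑ p ∈ T, (rk p : ℝ) ≤ C * ({p : 𝓞 F × 𝓞 F | Crv Y p}.ncard : ℝ) ∧
      ((∀ p ∈ T, NoTwo p) → ∑ p ∈ T, (s2 p : ℝ) ≤ C * ({p : 𝓞 F × 𝓞 F | Crv Y p}.ncard : ℝ))) ∧
    (({p : 𝓞 F × 𝓞 F | Crv Y p ∧ ¬ NoTwo p}.ncard : ℝ) ≤
      C * Y ^ (-(Module.finrank ℚ F : ℝ) / 3) * ({p : 𝓞 F × 𝓞 F | Crv Y p}.ncard : ℝ)) ∧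
    ∀ R : ℕ, ({p : 𝓞 F × 𝓞 F | Crv Y p ∧ R ≤ rk p}.ncard : ℝ) ≤
      C / 2 ^ R * ({p : 𝓞 F × 𝓞 F | Crv Y p}.ncard : ℝ) := by
  obtain ⟨hcf, hsel, C₁, hC₁, Y₁, hY₁⟩ := fin F
  obtain ⟨C₂, hC₂, hred⟩ := red_le F
  obtain ⟨C₃, hC₃, hrk⟩ := rk_red hI F
  obtain ⟨c, hc, B₀, hlow⟩ := crv_lower F
  obtain ⟨d, hd⟩ : ∃ d, d = Module.finrank ℚ F := ⟨_, rfl⟩
  rw [← hd] at hlow hred hrk
  obtain ⟨B₁, hB₁⟩ : ∃ B₁ : ℕ, B₁ = max B₀ 1 := ⟨_, rfl⟩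
  have hB₁1 : 1 ≤ B₁ := by rw [hB₁]; exact le_max_right _ _
  obtain ⟨C, hC⟩ : ∃ C : ℝ, C = C₁ + C₂ * C₃ * 2 ^ d / c := ⟨_, rfl⟩
  have hC0 : 0 ≤ C₂ * C₃ * 2 ^ d / c := by positivity
  have hCp : 0 < C := by rw [hC]; linarith
  refine ⟨hcf, hsel, C, hCp, max Y₁ (27 * (B₁ : ℝ) ^ 6), fun Y hY => ?_⟩
  obtain ⟨h1, h2, h3, -⟩ := hY₁ Y ((le_max_left _ _).trans hY)
  obtain ⟨B, hBB, hBY, hYB⟩ := exists_B B₁ Y hB₁1 ((le_max_right _ _).trans hY)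
  have hB1 : 1 ≤ B := hB₁1.trans hBB
  have hBr : (1 : ℝ) ≤ B := by exact_mod_cast hB1
  have hl := hlow B ((le_max_left B₀ 1).trans (by rw [← hB₁]; exact hBB)) hB1 Y hBY
  have hr := hred B hB1 Y hYB
  have hYpos : 0 < Y := by
    have : (1 : ℝ) ≤ (B : ℝ) ^ 6 := one_le_pow₀ hBr
    linarith
  obtain ⟨E, hE⟩ : ∃ E : ℝ, E = Y ^ (-(Module.finrank ℚ F : ℝ) / 3) := ⟨_, rfl⟩
  have hE0 : 0 < E := by rw [hE]; exact Real.rpow_pos_of_pos hYpos _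
  obtain ⟨N, hN⟩ : ∃ N : ℝ, N = ({p : 𝓞 F × 𝓞 F | Crv Y p}.ncard : ℝ) := ⟨_, rfl⟩
  have hN0 : 0 ≤ N := by rw [hN]; exact Nat.cast_nonneg _
  rw [← hN] at hl h2
  rw [← hN, ← hE] at h3
  rw [← hN, ← hE]
  have hle : C₁ ≤ C := by rw [hC]; linarith
  -- the powers of two
  have hS : ∀ T : Finset (𝓞 F × 𝓞 F), (∀ p ∈ T, Crv Y p) → ∑ p ∈ T, (2 : ℝ) ^ rk p ≤ C * N := by
    intro T hT
    rw [← Finset.sum_filter_add_sum_filter_not T (fun p => NoTwo p)]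
    have k1 : ∑ p ∈ T.filter (fun p => NoTwo p), (2 : ℝ) ^ rk p ≤ C₁ * N := by
      refine le_trans (Finset.sum_le_sum fun p hp => ?_) (h2 (T.filter fun p => NoTwo p)
        fun p hp => ⟨hT p (Finset.mem_filter.1 hp).1, (Finset.mem_filter.1 hp).2⟩).1
      have := (hsel p (Finset.mem_filter.1 hp).2).2
      exact_mod_cast this
    have k2 : ∑ p ∈ T.filter (fun p => ¬ NoTwo p), (2 : ℝ) ^ rk p ≤
        (C₂ * (B : ℝ) ^ (3 * d)) * (C₃ * ((B : ℝ) + 1) ^ d) := by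
      have k3 : ∀ p ∈ T.filter (fun p => ¬ NoTwo p), (2 : ℝ) ^ rk p ≤ C₃ * ((B : ℝ) + 1) ^ d := by
        intro p hp
        obtain ⟨hp1, hp2⟩ := Finset.mem_filter.1 hp
        have hcr := hT p hp1
        refine hrk ((B : ℝ) + 1) (by linarith) p hcr.disc (fun σ => ?_) (fun h => hp2
          ((noTwo_iff p).2 h))
        have hR0 : (0 : ℝ) ≤ (B : ℝ) + 1 := by positivity
        have h6 : 0 ≤ ((B : ℝ) + 1) ^ 6 := by positivity
        constructor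
        · have h3 := (hcr.ht σ).1
          refine le_of_pow3 (by positivity) ?_ (norm_nonneg _)
          have h5 : (2 * ((B : ℝ) + 1) ^ 2) ^ 3 = 8 * ((B : ℝ) + 1) ^ 6 := by ring
          rw [h5]
          linarith
        · have h3 := (hcr.ht σ).2
          refine le_of_pow_le_pow_left₀ two_ne_zero (by positivity) ?_
          have h5 : (((B : ℝ) + 1) ^ 3) ^ 2 = ((B : ℝ) + 1) ^ 6 := by ring
          rw [h5]
          linarith
      refine (Finset.sum_le_sum k3).trans ?_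
      rw [Finset.sum_const, nsmul_eq_mul]
      refine mul_le_mul_of_nonneg_right ?_ (by positivity)
      have k4 : (T.filter fun p => ¬ NoTwo p).card ≤
          {p : 𝓞 F × 𝓞 F | Crv Y p ∧ ¬ Irreducible (cu (p.1 : F) (p.2 : F))}.ncard := by
        rw [← Set.ncard_coe_finset]
        refine Set.ncard_le_ncard (fun p hp => ?_) ((hcf Y).subset fun p hp => hp.1)
        obtain ⟨hp1, hp2⟩ := Finset.mem_filter.1 (Finset.mem_coe.1 hp)
        exact ⟨hT p hp1, fun h => hp2 ((noTwo_iff p).2 h)⟩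
      have k5 : ((T.filter fun p => ¬ NoTwo p).card : ℝ) ≤
          ({p : 𝓞 F × 𝓞 F | Crv Y p ∧ ¬ Irreducible (cu (p.1 : F) (p.2 : F))}.ncard : ℝ) := by
        exact_mod_cast k4
      exact k5.trans hr
    have k6 : (C₂ * (B : ℝ) ^ (3 * d)) * (C₃ * ((B : ℝ) + 1) ^ d) ≤
        C₂ * C₃ * 2 ^ d / c * N := by
      have k7 : ((B : ℝ) + 1) ^ d ≤ (2 * B) ^ d := pow_le_pow_left₀ (by positivity) (by linarith) _
      calc (C₂ * (B : ℝ) ^ (3 * d)) * (C₃ * ((B : ℝ) + 1) ^ d)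
          ≤ (C₂ * (B : ℝ) ^ (3 * d)) * (C₃ * (2 * B) ^ d) := by gcongr
        _ = C₂ * C₃ * 2 ^ d * (B : ℝ) ^ (4 * d) := by
            rw [mul_pow]
            have : 4 * d = 3 * d + d := by ring
            rw [this, pow_add]
            ring
        _ ≤ C₂ * C₃ * 2 ^ d * (B : ℝ) ^ (5 * d) := by
            refine mul_le_mul_of_nonneg_left (pow_le_pow_right₀ hBr (by omega)) (by positivity)
        _ = C₂ * C₃ * 2 ^ d / c * (c * (B : ℝ) ^ (5 * d)) := by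
            field_simp
        _ ≤ _ := mul_le_mul_of_nonneg_left hl hC0
    calc _ ≤ C₁ * N + C₂ * C₃ * 2 ^ d / c * N := add_le_add k1 (k2.trans k6)
      _ = C * N := by rw [hC]; ring
  refine ⟨h1, fun T hT => ⟨hS T hT, ?_, fun hT' => ?_⟩, ?_, fun R => ?_⟩
  · refine le_trans (Finset.sum_le_sum fun p _ => ?_) (hS T hT)
    have h9 : rk p ≤ 2 ^ rk p := Nat.lt_two_pow_self.le
    exact_mod_cast h9
  · exact ((h2 T fun p hp => ⟨hT p hp, hT' p hp⟩).1).trans (mul_le_mul_of_nonneg_right hle hN0)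
  · refine h3.trans ?_
    refine mul_le_mul_of_nonneg_right (mul_le_mul_of_nonneg_right hle hE0.le) hN0
  · have hfA : {p : 𝓞 F × 𝓞 F | Crv Y p ∧ R ≤ rk p}.Finite := (hcf Y).subset fun p hp => hp.1
    have k1 := hS hfA.toFinset fun p hp => (hfA.mem_toFinset.1 hp).1
    have k2 : ∑ p ∈ hfA.toFinset, (2 : ℝ) ^ R ≤ ∑ p ∈ hfA.toFinset, (2 : ℝ) ^ rk p :=
      Finset.sum_le_sum fun p hp => pow_le_pow_right₀ (by norm_num) (hfA.mem_toFinset.1 hp).2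
    rw [Finset.sum_const, nsmul_eq_mul, ← Set.ncard_eq_toFinset_card _ hfA] at k2
    have k3 : (0 : ℝ) < 2 ^ R := by positivity
    rw [div_mul_eq_mul_div, le_div_iff₀ k3]
    exact k2.trans k1

end Pool.Agent.H459.AV
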