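import Pool.Agent.H459.AV.Cnt

/-!
# The average size of the 2-Selmer group is bounded (helper459)
-/

set_option autoImplicit false
set_option linter.all false

open Polynomial IsDedekindDomain Matrix NumberField
open scoped Classical

namespace Pool.Agent.H459.AV

open Pool.Agent.N783.PF
open Pool.Agent.N874.PP (sW)
open Pool.Agent.H459.UF (cu cu_monic cu_deg)
open Pool.Agent.N61.PF (pol ht_pol exists_B crv_of_ht ht_lower crv_finite eq_pol)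

section

variable {F : Type} [Field F] [NumberField F]

/-- The number of the curves from below. -/
theorem crv_lower (F : Type) [Field F] [NumberField F] : ∃ c : ℝ, 0 < c ∧ ∃ B₀ : ℕ, ∀ B ≥ B₀,
    1 ≤ B → ∀ Y : ℝ, 27 * (B : ℝ) ^ 6 ≤ Y →
    c * (B : ℝ) ^ (5 * Module.finrank ℚ F) ≤ ({p : 𝓞 F × 𝓞 F | Crv Y p}.ncard : ℝ) := by
  obtain ⟨-, C, hC, hlow, hup⟩ := Pool.Agent.N490.PF.pts F
  obtain ⟨c, hc, B₀, hmain⟩ := Pool.Agent.N783.PF.main 1 F le_rfl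
  refine ⟨c / C ^ 2, by positivity, B₀, fun B hB hB1 Y hBY => ?_⟩
  obtain ⟨hfinH, hprop⟩ := hmain B hB
  have hl := ht_lower hC hlow hB1 hfinH
  have hfin := crv_finite (F := F) Pool.Agent.N490.PF.pts Y
  have h6 := Set.ncard_le_ncard_of_injOn (fun f : (𝓞 F)[X] => (f.coeff 1, f.coeff 0))
    (s := {f : (𝓞 F)[X] | Ht 1 B f ∧ Irreducible (fF f) ∧ SelZero f ∧ Min 1 f})
    (t := {p : 𝓞 F × 𝓞 F | Crv Y p})
    (fun f hf => crv_of_ht hf.1 hf.2.1 hf.2.2.2 hBY)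
    (by
      intro f hf f' hf' h
      have e := Prod.mk.injEq .. ▸ h
      rw [eq_pol hf.1, eq_pol hf'.1, e.1, e.2])
    hfin
  have h7 : ({f : (𝓞 F)[X] | Ht 1 B f ∧ Irreducible (fF f) ∧ SelZero f ∧ Min 1 f}.ncard : ℝ) ≤
      ({p : 𝓞 F × 𝓞 F | Crv Y p}.ncard : ℝ) := by exact_mod_cast h6
  refine le_trans ?_ (hprop.trans h7)
  rw [div_mul_eq_mul_div, div_le_iff₀ (by positivity)]
  calc c * (B : ℝ) ^ (5 * Module.finrank ℚ F) ≤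
        c * (C ^ 2 * ({f : (𝓞 F)[X] | Ht 1 B f}.ncard : ℝ)) := mul_le_mul_of_nonneg_left hl hc.le
    _ = _ := by ring

theorem le_of_pow3 {x R : ℝ} (hR : 0 ≤ R) (h : x ^ 3 ≤ R ^ 3) (hx : 0 ≤ x) : x ≤ R :=
  le_of_pow_le_pow_left₀ (by norm_num) hR h

/-- The box of the scaled polynomials. -/
theorem ht_sc {Y : ℝ} {B : ℕ} (hY : Y < 27 * ((B : ℝ) + 1) ^ 6) {p : 𝓞 F × 𝓞 F} (hp : Crv Y p) :
    Ht 1 (6 * (B + 1)) (sc p.1 p.2) := by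
  have hB0 : (0 : ℝ) ≤ (B : ℝ) + 1 := by positivity
  unfold sc
  refine ht_pol ?_ ?_
  · intro σ
    have h3 := (hp.ht σ).1
    have h4 : ‖σ (p.1 : F)‖ ≤ 2 * ((B : ℝ) + 1) ^ 2 := by
      refine le_of_pow3 (by positivity) ?_ (norm_nonneg _)
      have h5 : (2 * ((B : ℝ) + 1) ^ 2) ^ 3 = 8 * ((B : ℝ) + 1) ^ 6 := by ring
      rw [h5]
      have h6 : 0 ≤ ((B : ℝ) + 1) ^ 6 := by positivity
      linarith
    have e1 : (((16 * p.1 : 𝓞 F)) : F) = 16 * (p.1 : F) := by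
      change algebraMap (𝓞 F) F (16 * p.1) = 16 * algebraMap (𝓞 F) F p.1
      rw [map_mul (algebraMap (𝓞 F) F), map_ofNat]
    rw [e1, map_mul, norm_mul, map_ofNat]
    have e2 : ‖(16 : ℂ)‖ = 16 := by norm_num
    rw [e2]
    push_cast
    calc 16 * ‖σ (p.1 : F)‖ ≤ 16 * (2 * ((B : ℝ) + 1) ^ 2) := by linarith
      _ ≤ (6 * ((B : ℝ) + 1)) ^ 2 := by
        have h6 : 0 ≤ ((B : ℝ) + 1) ^ 2 := by positivity
        nlinarith
  · intro σ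
    have h3 := (hp.ht σ).2
    have h4 : ‖σ (p.2 : F)‖ ≤ ((B : ℝ) + 1) ^ 3 := by
      refine le_of_pow_le_pow_left₀ two_ne_zero (by positivity) ?_
      have h5 : (((B : ℝ) + 1) ^ 3) ^ 2 = ((B : ℝ) + 1) ^ 6 := by ring
      rw [h5]
      linarith
    have e1 : (((64 * p.2 : 𝓞 F)) : F) = 64 * (p.2 : F) := by
      change algebraMap (𝓞 F) F (64 * p.2) = 64 * algebraMap (𝓞 F) F p.2
      rw [map_mul (algebraMap (𝓞 F) F), map_ofNat]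
    rw [e1, map_mul, norm_mul, map_ofNat]
    have e2 : ‖(64 : ℂ)‖ = 64 := by norm_num
    rw [e2]
    push_cast
    calc 64 * ‖σ (p.2 : F)‖ ≤ 64 * ((B : ℝ) + 1) ^ 3 := by linarith
      _ ≤ (6 * ((B : ℝ) + 1)) ^ 3 := by
        have h6 : 0 ≤ ((B : ℝ) + 1) ^ 3 := by positivity
        nlinarith

/-- **The average size of the 2-Selmer group is bounded.** -/
theorem avg (F : Type) [Field F] [NumberField F] : ∃ C : ℝ, 0 < C ∧ ∃ Y₀ : ℝ, ∀ Y ≥ Y₀,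
    0 < {p : 𝓞 F × 𝓞 F | Crv Y p}.ncard ∧
    ∀ T : Finset (𝓞 F × 𝓞 F), (∀ p ∈ T, Crv Y p ∧ Irreducible (cu (p.1 : F) (p.2 : F))) →
    (∀ p ∈ T, Finite (Sel2 (sW (p.1 : F) (p.2 : F)))) ∧
    (∑ p ∈ T, (Nat.card (Sel2 (sW (p.1 : F) (p.2 : F))) : ℝ)) ≤
      C * ({p : 𝓞 F × 𝓞 F | Crv Y p}.ncard : ℝ) := by
  obtain ⟨C₁, hC₁⟩ := total F
  obtain ⟨c, hc, B₀, hlow⟩ := crv_lower F
  obtain ⟨d, hd⟩ : ∃ d, d = Module.finrank ℚ F := ⟨_, rfl⟩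
  rw [← hd] at hC₁ hlow
  obtain ⟨B₁, hB₁⟩ : ∃ B₁ : ℕ, B₁ = max B₀ 1 := ⟨_, rfl⟩
  have hB₁1 : 1 ≤ B₁ := by rw [hB₁]; exact le_max_right _ _
  refine ⟨1 + C₁ * 12 ^ (5 * d) / c, by positivity, 27 * (B₁ : ℝ) ^ 6, fun Y hY => ?_⟩
  obtain ⟨B, hBB, hBY, hYB⟩ := exists_B B₁ Y hB₁1 hY
  have hB1 : 1 ≤ B := hB₁1.trans hBB
  have hBr : (1 : ℝ) ≤ B := by exact_mod_cast hB1
  have hl := hlow B ((le_max_left B₀ 1).trans (by rw [← hB₁]; exact hBB)) hB1 Y hBY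
  have hfin := crv_finite (F := F) Pool.Agent.N490.PF.pts Y
  constructor
  · have h1 : (0 : ℝ) < ({p : 𝓞 F × 𝓞 F | Crv Y p}.ncard : ℝ) :=
      lt_of_lt_of_le (by positivity) hl
    exact_mod_cast h1
  · intro T hT
    obtain ⟨h1, h2⟩ := hC₁ (6 * (B + 1)) (by omega) T fun p hp =>
      ⟨(hT p hp).2, ht_sc hYB (hT p hp).1⟩
    refine ⟨h1, ?_⟩
    have h3 : T.card ≤ {p : 𝓞 F × 𝓞 F | Crv Y p}.ncard := by
      rw [← Set.ncard_coe_finset]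
      exact Set.ncard_le_ncard (fun p hp => (hT p hp).1) hfin
    have h4 : (((6 * (B + 1) : ℕ) : ℝ)) ^ (5 * d) ≤ (12 * (B : ℝ)) ^ (5 * d) := by
      refine pow_le_pow_left₀ (by positivity) ?_ _
      push_cast
      linarith
    have h5 : (∑ p ∈ T, (Nat.card (Sel2 (sW (p.1 : F) (p.2 : F))) : ℝ)) ≤
        (T.card : ℝ) + C₁ * (((6 * (B + 1) : ℕ) : ℝ)) ^ (5 * d) := by
      exact_mod_cast h2
    have h6 : (T.card : ℝ) ≤ ({p : 𝓞 F × 𝓞 F | Crv Y p}.ncard : ℝ) := by exact_mod_cast h3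
    refine h5.trans ?_
    calc (T.card : ℝ) + C₁ * (((6 * (B + 1) : ℕ) : ℝ)) ^ (5 * d)
        ≤ ({p : 𝓞 F × 𝓞 F | Crv Y p}.ncard : ℝ) + C₁ * (12 * (B : ℝ)) ^ (5 * d) :=
          add_le_add h6 (mul_le_mul_of_nonneg_left h4 (by positivity))
      _ = ({p : 𝓞 F × 𝓞 F | Crv Y p}.ncard : ℝ) +
          C₁ * 12 ^ (5 * d) / c * (c * (B : ℝ) ^ (5 * d)) := by
          rw [mul_pow]
          field_simp
      _ ≤ ({p : 𝓞 F × 𝓞 F | Crv Y p}.ncard : ℝ) +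
          C₁ * 12 ^ (5 * d) / c * ({p : 𝓞 F × 𝓞 F | Crv Y p}.ncard : ℝ) := by
          have h7 : (0 : ℝ) ≤ C₁ * 12 ^ (5 * d) / c := by positivity
          have h8 := mul_le_mul_of_nonneg_left hl h7
          linarith
      _ = _ := by ring

end

end Pool.Agent.H459.AV
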