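import Pool.Agent.H459.AV.Orb

/-!
# The number of the classes of pairs (helper459)

After `N134/PF/Bad.lean` (helper134) of the library.
-/

set_option autoImplicit false
set_option linter.all false

open Polynomial Matrix NumberField
open scoped Classical

namespace Pool.Agent.H459.AV

open Pool.Agent.N352.PJ (Mt Typ dd)
open Pool.Agent.N783.PQ (chp form Dist Gap Mid Deep eA eB eU uu)
open Pool.Agent.N783.PF
open Pool.Agent.N270.PJ (typ_mid typ_nonpos idx idx_inj min_le_sum geo growth ncard_biUnion_le)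
open Pool.Agent.N850.PQ (gap_bd sum_idx_le_uu)

/-- The total number of the classes. -/
theorem badA (F : Type) [Field F] [NumberField F] (g c : ℕ) (hg : 1 ≤ g) : ∃ C N₀ : ℕ,
    ∀ N ≥ N₀, {q : Cp F g | ∃ w, Typ g w ∧ Gap g N w ∧ (Mid g N w ∨ Deep g N c w) ∧
      q ∈ Pc F g N c w}.Finite ∧
    {q : Cp F g | ∃ w, Typ g w ∧ Gap g N w ∧ (Mid g N w ∨ Deep g N c w) ∧
      q ∈ Pc F g N c w}.ncard ≤ C * 2 ^ (Module.finrank ℚ F * (2 * N * dd g)) := by
  have h1 := Pool.Agent.N456.PF.pb Pool.Agent.N490.PF.pts Pool.Agent.N42.PF.cqa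
    Pool.Agent.N42.PF.cqb
  have h2 := Pool.Agent.N456.PF.pb0 Pool.Agent.N490.PF.pts
  have h4 := Pool.Agent.N747.PQ.ide
  have h5 := Pool.Agent.N747.PQ.exp1
  have h6 := Pool.Agent.N747.PQ.exp2
  obtain ⟨D, hD⟩ : ∃ D : ℕ, D = Module.finrank ℚ F := ⟨_, rfl⟩
  have hD1 : 1 ≤ D := by
    rw [hD]
    exact Module.finrank_pos
  obtain ⟨κ, C2, hκ⟩ := orbA F g
  obtain ⟨C1, K, hC1⟩ := h1 F g (c + κ) hg
  obtain ⟨C0, hC0⟩ := h2 F g (c + κ) hg
  rw [← hD] at hκ hC1 hC0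
  rw [← hD]
  obtain ⟨S, hS0⟩ : ∃ S : Finset ℕ, S = ∅ := ⟨_, rfl⟩
  obtain ⟨𝔮, h𝔮0⟩ : ∃ 𝔮 : ℕ → Ideal (𝓞 F), 𝔮 = fun _ => ⊥ := ⟨_, rfl⟩
  obtain ⟨P', hP0⟩ : ∃ P' : ℕ → (𝓞 F)[X], P' = fun _ => 0 := ⟨_, rfl⟩
  have hS : GoodS g K S 𝔮 P' P' := by
    intro q hq
    rw [hS0] at hq
    exact absurd hq (Finset.notMem_empty q)
  obtain ⟨A, hA⟩ : ∃ A : ℕ, A = 2 ^ S.card * (∏ q ∈ S, q ^ (2 * g)) ^ D := ⟨_, rfl⟩
  obtain ⟨Q, hQ⟩ : ∃ Q : ℕ, Q = ∏ q ∈ S, q := ⟨_, rfl⟩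
  obtain ⟨δ, hδ⟩ : ∃ δ : ℕ, Q ≤ 2 ^ δ := ⟨Q, Nat.lt_two_pow_self.le⟩
  obtain ⟨N₀, hN₀⟩ := growth A g (δ + c)
  refine ⟨C2 * (C1 + C0) * 2 ^ (D * (2 * κ * dd g)) * 2 ^ (g + 1), N₀, fun N hN => ?_⟩
  obtain ⟨M, hM⟩ : ∃ M : ℕ, M = N + κ := ⟨_, rfl⟩
  obtain ⟨E, hE⟩ : ∃ E : ℕ, E = 2 * M * dd g := ⟨_, rfl⟩
  let P : (Fin (2 * g + 1) → ℤ) → Set (Cp F g) := fun w => Pc F g N c w
  let X : (Fin (2 * g + 1) → ℤ) → Set (Mt g (𝓞 F) × Mt g (𝓞 F)) := fun w =>
    {p : Mt g (𝓞 F) × Mt g (𝓞 F) | Xset g M (c + κ) w S 𝔮 P' p.1 p.2}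
  have hXfin : ∀ w, Typ g w → (X w).Finite := fun w hw => (hC0 S 𝔮 P' M w hw).1
  -- the pairs in the small box
  have hPfin : ∀ w, Typ g w → (P w).Finite := by
    intro w hw
    obtain ⟨C', hC'⟩ := h2 F g c hg
    have hfi := (hC' S 𝔮 P' N w hw).1.image
      (fun p : Mt g (𝓞 F) × Mt g (𝓞 F) => cp (mF p.1) (mF p.2))
    refine hfi.subset ?_
    rintro f ⟨A, B, hB, hf, rfl⟩
    refine ⟨(A, B), ?_, rfl⟩
    rw [hS0, h𝔮0, hP0]
    exact hB
  -- the types
  let T : Set (Fin (2 * g + 1) → ℤ) := {w | Typ g w ∧ Gap g N w ∧ (Mid g N w ∨ Deep g N c w)}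
  have hidx : ∀ w ∈ T, idx w ∈ Fintype.piFinset fun _ : Fin g => Finset.range (2 * g * N + 1) := by
    intro w hw
    rw [Fintype.mem_piFinset]
    intro i
    rw [Finset.mem_range]
    have h5 := gap_bd hw.1 hw.2.1 (g - i) ⟨i, by omega⟩
      (by show (i : ℕ) + (g - i) = g; omega)
    have h6 : (2 : ℤ) * N * ((g - i : ℕ) : ℤ) ≤ 2 * N * g := by
      refine mul_le_mul_of_nonneg_left ?_ (by positivity)
      omega
    have h7 : (2 : ℤ) * N * g = ((2 * g * N : ℕ) : ℤ) := by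
      push_cast
      ring
    have h8 := h5.trans (h6.trans_eq h7)
    unfold idx
    omega
  have hinj : Set.InjOn (idx (g := g)) T := fun w hw w' hw' hww =>
    idx_inj hw.1 hw'.1 hww
  have hTfin : T.Finite := by
    refine Set.Finite.of_finite_image ?_ hinj
    refine (Finset.finite_toSet
      (Fintype.piFinset fun _ : Fin g => Finset.range (2 * g * N + 1))).subset ?_
    rintro _ ⟨w, hw, rfl⟩
    exact hidx w hw
  obtain ⟨V, hV⟩ : ∃ V : Finset (Fin (2 * g + 1) → ℤ), V = hTfin.toFinset := ⟨_, rfl⟩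
  have hVm : ∀ w, w ∈ V ↔ w ∈ T := fun w => by rw [hV, Set.Finite.mem_toFinset]
  obtain ⟨Y, hY⟩ : ∃ Y : Set (Cp F g), Y = {q : Cp F g | ∃ w, Typ g w ∧ Gap g N w ∧
      (Mid g N w ∨ Deep g N c w) ∧ q ∈ Pc F g N c w} := ⟨_, rfl⟩
  rw [← hY]
  have hsub : Y ⊆ ⋃ w ∈ V, P w := by
    rw [hY]
    rintro f ⟨w, hw, hr, hmd, hB⟩
    rw [Set.mem_iUnion₂]
    exact ⟨w, (hVm w).2 ⟨hw, hr, hmd⟩, hB⟩
  have hfin : (⋃ w ∈ V, P w).Finite :=
    Set.Finite.biUnion (Finset.finite_toSet _) fun w hw =>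
      hPfin w ((hVm w).1 (Finset.mem_coe.1 hw)).1
  have hle : Y.ncard ≤ ∑ w ∈ V, (P w).ncard :=
    (Set.ncard_le_ncard hsub hfin).trans (ncard_biUnion_le P V)
  obtain ⟨C, hC⟩ : ∃ C : ℕ, C = C2 * (C1 + C0) := ⟨_, rfl⟩
  have hC21 : C2 * C1 ≤ C := by
    rw [hC]
    exact Nat.mul_le_mul_left _ (by omega)
  have hC20 : C2 * C0 ≤ C := by
    rw [hC]
    exact Nat.mul_le_mul_left _ (by omega)
  -- each term
  have hterm : ∀ w ∈ V, (A : ℝ) * ((P w).ncard : ℝ) ≤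
      (C * 2 ^ (D * E) : ℝ) *
        (∏ i, (1 / 2 : ℝ) ^ idx w i + 1 / ((2 * g * N + 1 : ℕ) : ℝ) ^ g) := by
    intro w hwV
    have hw := (hVm w).1 hwV
    have ho : (P w).ncard * 2 ^ (D * eU g w) ≤ C2 * (X w).ncard := by
      have hXe : X w = {p : Mt g (𝓞 F) × Mt g (𝓞 F) | Xs g M (c + κ) w p.1 p.2} := by
        show {p : Mt g (𝓞 F) × Mt g (𝓞 F) | Xset g M (c + κ) w S 𝔮 P' p.1 p.2} = _
        rw [hS0, h𝔮0, hP0]
      have := hκ c N w hw.1 (by rw [← hM, ← hXe]; exact hXfin w hw.1)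
      rw [← hM, ← hXe] at this
      exact this
    have hide := h4 g w hw.1
    have hE0 : (0 : ℝ) ≤ (C * 2 ^ (D * E) : ℝ) := by positivity
    have hgapM : Gap g M w := fun i j hij => (hw.2.1 i j hij).trans (by rw [hM]; push_cast; omega)
    by_cases hc : ((∏ q ∈ S, q : ℕ) : ℝ) ≤ (2 : ℝ) ^ (2 * (M : ℤ) + 2 * w 0)
    · have hb := hC1 K S 𝔮 P' P' le_rfl hS M w hw.1 hc
      rw [← hA, ← hE] at hb
      have key : A * (P w).ncard * 2 ^ (∑ i, idx w i) ≤ C * 2 ^ (D * E) := by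
        have hk1 : A * (P w).ncard * 2 ^ (D * uu g w) * 2 ^ (D * eA g w) ≤
            C2 * C1 * 2 ^ (D * E) * 2 ^ (D * eA g w) := by
          calc A * (P w).ncard * 2 ^ (D * uu g w) * 2 ^ (D * eA g w)
              = A * ((P w).ncard * 2 ^ (D * eU g w)) := by
                rw [hide, mul_add, pow_add]; ring
            _ ≤ A * (C2 * (X w).ncard) := Nat.mul_le_mul_left _ ho
            _ = C2 * (A * (X w).ncard) := by ring
            _ ≤ C2 * (C1 * 2 ^ (D * (eA g w + E))) := Nat.mul_le_mul_left _ hb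
            _ = _ := by rw [mul_add, pow_add]; ring
        have hk2 : A * (P w).ncard * 2 ^ (D * uu g w) ≤ C2 * C1 * 2 ^ (D * E) :=
          Nat.le_of_mul_le_mul_right hk1 (by positivity)
        have hk3 : ∑ i, idx w i ≤ D * uu g w :=
          (sum_idx_le_uu hw.1).trans (Nat.le_mul_of_pos_left _ hD1)
        calc A * (P w).ncard * 2 ^ (∑ i, idx w i) ≤ A * (P w).ncard * 2 ^ (D * uu g w) :=
              Nat.mul_le_mul_left _ (Nat.pow_le_pow_right (by omega) hk3)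
          _ ≤ C2 * C1 * 2 ^ (D * E) := hk2
          _ ≤ C * 2 ^ (D * E) := Nat.mul_le_mul_right _ hC21
      have key' : (A : ℝ) * ((P w).ncard : ℝ) * 2 ^ (∑ i, idx w i) ≤
          C * (2 : ℝ) ^ (D * E) := by
        exact_mod_cast key
      have h8 : ∏ i, (1 / 2 : ℝ) ^ idx w i = 1 / 2 ^ (∑ i, idx w i) := by
        rw [Finset.prod_pow_eq_pow_sum, _root_.one_div_pow]
      rw [h8]
      have h9 : (A : ℝ) * ((P w).ncard : ℝ) ≤
          (C * 2 ^ (D * E) : ℝ) * (1 / 2 ^ (∑ i, idx w i)) := by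
        rw [mul_one_div, le_div_iff₀ (by positivity)]
        exact key'
      refine h9.trans (mul_le_mul_of_nonneg_left ?_ hE0)
      have : (0 : ℝ) ≤ 1 / ((2 * g * N + 1 : ℕ) : ℝ) ^ g := by positivity
      linarith
    · have hb := (hC0 S 𝔮 P' M w hw.1).2
      have h50 : w 0 ≤ 0 := typ_nonpos hw.1 0 (by simp)
      -- the depth of the first step
      have hdep : (M : ℤ) - δ ≤ - w 0 := by
        by_contra hcon
        push Not at hcon
        apply hc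
        have h51 : (δ : ℤ) ≤ 2 * (M : ℤ) + 2 * w 0 := by omega
        calc ((∏ q ∈ S, q : ℕ) : ℝ) ≤ (2 : ℝ) ^ δ := by rw [← hQ]; exact_mod_cast hδ
          _ = (2 : ℝ) ^ (δ : ℤ) := by rw [zpow_natCast]
          _ ≤ _ := zpow_le_zpow_right₀ (by norm_num) h51
      -- the exponent
      have hexp : eB g M w + (N - (δ + c)) ≤ 2 * M + E + uu g w := by
        have hE7 : (E : ℤ) = 2 * M * dd g := by rw [hE]; push_cast; ring
        have hMN : (M : ℤ) = N + κ := by rw [hM]; push_cast; ring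
        by_cases hmid : Mid g M w
        · have he := h5 g M w hg hw.1 hgapM hmid
          have hm := min_le_sum M hg hw.1
          have h55 : ((N - (δ + c) : ℕ) : ℤ) ≤ min (- w 0) M := by
            refine le_min ?_ ?_ <;> omega
          omega
        · have he := h6 g M w hg hw.1 hgapM hmid
          have hnm : ¬ Mid g N w := fun hh => hmid fun i hi => (hh i hi).trans (by rw [hM]; push_cast; omega)
          have hdeep : Deep g N c w := hw.2.2.resolve_left hnm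
          unfold Deep at hdeep
          have h56 : (N : ℤ) - c ≤ 2 * M * g + w 0 := by
            have : (0 : ℤ) ≤ 2 * κ * g := by positivity
            rw [hMN]
            nlinarith
          have h57 : (0 : ℤ) ≤ 2 * M * g + w 0 := by
            have := gap_bd hw.1 hgapM g 0 (by simp)
            linarith
          omega
      have h7 : (P w).ncard * 2 ^ (D * (N - (δ + c))) ≤ C * 2 ^ (D * E) := by
        have h8 : (P w).ncard * 2 ^ (D * (N - (δ + c))) * 2 ^ (D * (2 * M + eA g w + uu g w)) ≤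
            C * 2 ^ (D * E) * 2 ^ (D * (2 * M + eA g w + uu g w)) := by
          calc (P w).ncard * 2 ^ (D * (N - (δ + c))) * 2 ^ (D * (2 * M + eA g w + uu g w))
              = 2 ^ (D * (N - (δ + c))) * (2 ^ (D * (2 * M)) * ((P w).ncard * 2 ^ (D * eU g w))) := by
                rw [hide, mul_add, mul_add, mul_add, pow_add, pow_add, pow_add]; ring
            _ ≤ 2 ^ (D * (N - (δ + c))) * (2 ^ (D * (2 * M)) * (C2 * (X w).ncard)) :=
                Nat.mul_le_mul_left _ (Nat.mul_le_mul_left _ ho)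
            _ = C2 * (2 ^ (D * (N - (δ + c))) * (2 ^ (D * (2 * M)) * (X w).ncard)) := by ring
            _ ≤ C2 * (2 ^ (D * (N - (δ + c))) * (C0 * 2 ^ (D * (eA g w + eB g M w)))) :=
                Nat.mul_le_mul_left _ (Nat.mul_le_mul_left _ hb)
            _ = C2 * C0 * (2 ^ (D * eA g w) * 2 ^ (D * (eB g M w + (N - (δ + c))))) := by
                rw [mul_add, mul_add, pow_add, pow_add]; ring
            _ ≤ C2 * C0 * (2 ^ (D * eA g w) * 2 ^ (D * (2 * M + E + uu g w))) :=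
                Nat.mul_le_mul_left _ (Nat.mul_le_mul_left _
                  (Nat.pow_le_pow_right (by omega) (Nat.mul_le_mul_left _ hexp)))
            _ = C2 * C0 * 2 ^ (D * E) * 2 ^ (D * (2 * M + eA g w + uu g w)) := by
                rw [mul_add, mul_add, mul_add, mul_add, pow_add, pow_add, pow_add, pow_add]; ring
            _ ≤ C * 2 ^ (D * E) * 2 ^ (D * (2 * M + eA g w + uu g w)) :=
                Nat.mul_le_mul_right _ (Nat.mul_le_mul_right _ hC20)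
        exact Nat.le_of_mul_le_mul_right h8 (by positivity)
      have key : A * (P w).ncard * (2 * g * N + 1) ^ g ≤ C * 2 ^ (D * E) := by
        calc A * (P w).ncard * (2 * g * N + 1) ^ g = (P w).ncard * (A * (2 * g * N + 1) ^ g) := by
              ring
          _ ≤ (P w).ncard * 2 ^ (N - (δ + c)) := Nat.mul_le_mul_left _ (hN₀ N hN)
          _ ≤ (P w).ncard * 2 ^ (D * (N - (δ + c))) := Nat.mul_le_mul_left _
              (Nat.pow_le_pow_right (by omega) (Nat.le_mul_of_pos_left _ hD1))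
          _ ≤ C * 2 ^ (D * E) := h7
      have key' : (A : ℝ) * ((P w).ncard : ℝ) * ((2 * g * N + 1 : ℕ) : ℝ) ^ g ≤
          C * (2 : ℝ) ^ (D * E) := by
        exact_mod_cast key
      have h9 : (A : ℝ) * ((P w).ncard : ℝ) ≤
          (C * 2 ^ (D * E) : ℝ) * (1 / ((2 * g * N + 1 : ℕ) : ℝ) ^ g) := by
        rw [mul_one_div, le_div_iff₀ (by positivity)]
        exact key'
      refine h9.trans (mul_le_mul_of_nonneg_left ?_ hE0)
      have : (0 : ℝ) ≤ ∏ i, (1 / 2 : ℝ) ^ idx w i := Finset.prod_nonneg fun i _ => by positivity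
      linarith
  -- the sum
  have hs1 : ∑ w ∈ V, ∏ i, (1 / 2 : ℝ) ^ idx w i ≤ 2 ^ g := by
    have hVi : Set.InjOn (idx (g := g)) (V : Set _) := fun w hw w' hw' hww =>
      hinj ((hVm w).1 (Finset.mem_coe.1 hw)) ((hVm w').1 (Finset.mem_coe.1 hw')) hww
    calc ∑ w ∈ V, ∏ i, (1 / 2 : ℝ) ^ idx w i =
        ∑ s ∈ V.image idx, ∏ i, (1 / 2 : ℝ) ^ s i := by rw [Finset.sum_image hVi]
      _ ≤ ∑ s ∈ Fintype.piFinset fun _ : Fin g => Finset.range (2 * g * N + 1),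
          ∏ i, (1 / 2 : ℝ) ^ s i := by
        refine Finset.sum_le_sum_of_subset_of_nonneg ?_ fun s _ _ =>
          Finset.prod_nonneg fun i _ => by positivity
        intro s hs
        rw [Finset.mem_image] at hs
        obtain ⟨w, hw, rfl⟩ := hs
        exact hidx w ((hVm w).1 hw)
      _ = ∏ i : Fin g, ∑ m ∈ Finset.range (2 * g * N + 1), (1 / 2 : ℝ) ^ m := by
        rw [Finset.prod_univ_sum]
      _ ≤ ∏ i : Fin g, (2 : ℝ) := Finset.prod_le_prod
          (fun i _ => Finset.sum_nonneg fun m _ => by positivity) fun i _ => geo _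
      _ = 2 ^ g := by simp
  have hs2 : ∑ w ∈ V, 1 / ((2 * g * N + 1 : ℕ) : ℝ) ^ g ≤ 1 := by
    have hcard : V.card ≤ (2 * g * N + 1) ^ g := by
      have h5 := Finset.card_le_card_of_injOn (s := V)
        (t := Fintype.piFinset fun _ : Fin g => Finset.range (2 * g * N + 1)) idx
        (fun w hw => hidx w ((hVm w).1 (Finset.mem_coe.1 hw)))
        (fun w hw w' hw' hww =>
          hinj ((hVm w).1 (Finset.mem_coe.1 hw)) ((hVm w').1 (Finset.mem_coe.1 hw')) hww)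
      refine h5.trans_eq ?_
      rw [Fintype.card_piFinset]
      simp
    rw [Finset.sum_const, nsmul_eq_mul, mul_one_div, div_le_one (by positivity)]
    exact_mod_cast hcard
  have hsum : (A : ℝ) * (Y.ncard : ℝ) ≤
      C * 2 ^ (g + 1) * (2 : ℝ) ^ (D * E) := by
    have h5 : (Y.ncard : ℝ) ≤
        ∑ w ∈ V, ((P w).ncard : ℝ) := by exact_mod_cast hle
    have h10 : (1 : ℝ) ≤ 2 ^ g := one_le_pow₀ (by norm_num)
    calc (A : ℝ) * (Y.ncard : ℝ) ≤
        A * ∑ w ∈ V, ((P w).ncard : ℝ) := mul_le_mul_of_nonneg_left h5 (Nat.cast_nonneg A)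
      _ = ∑ w ∈ V, (A : ℝ) * ((P w).ncard : ℝ) := Finset.mul_sum _ _ _
      _ ≤ ∑ w ∈ V, (C * 2 ^ (D * E) : ℝ) *
          (∏ i, (1 / 2 : ℝ) ^ idx w i + 1 / ((2 * g * N + 1 : ℕ) : ℝ) ^ g) :=
          Finset.sum_le_sum hterm
      _ = (C * 2 ^ (D * E) : ℝ) * (∑ w ∈ V, ∏ i, (1 / 2 : ℝ) ^ idx w i +
            ∑ w ∈ V, 1 / ((2 * g * N + 1 : ℕ) : ℝ) ^ g) := by
          rw [← Finset.mul_sum, Finset.sum_add_distrib]
      _ ≤ (C * 2 ^ (D * E) : ℝ) * (2 ^ g + 1) :=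
          mul_le_mul_of_nonneg_left (add_le_add hs1 hs2) (by positivity)
      _ ≤ (C * 2 ^ (D * E) : ℝ) * (2 ^ g + 2 ^ g) :=
          mul_le_mul_of_nonneg_left (by linarith) (by positivity)
      _ = _ := by ring
  have hsum' : A * Y.ncard ≤
      C * 2 ^ (g + 1) * 2 ^ (D * E) := by
    exact_mod_cast hsum
  refine ⟨hfin.subset hsub, ?_⟩
  have hA1 : A = 1 := by
    rw [hA, hS0]
    simp
  rw [hA1, one_mul] at hsum'
  refine hsum'.trans (le_of_eq ?_)
  have hE8 : D * E = D * (2 * κ * dd g) + D * (2 * N * dd g) := by rw [hE, hM]; ring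
  rw [hE8, pow_add, hC]
  ring

end Pool.Agent.H459.AV
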