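import Pool.Agent.H459.AV.Sel

/-!
# From the Selmer classes of a curve to classes of pairs (helper459)
-/

set_option autoImplicit false
set_option linter.all false

open Polynomial IsDedekindDomain Matrix NumberField
open scoped Classical

namespace Pool.Agent.H459.AV

open Pool.Agent.N783.PF
open Pool.Agent.N352.PJ (Mt Typ dd)
open Pool.Agent.N783.PQ (chp Gap Mid Deep LocIm)
open Pool.Agent.N874.JM (LocF)
open Pool.Agent.H459.UF (cu cu_monic cu_deg)
open Pool.Agent.N61.PF (pol pol_natDegree pol_monic pol_coeff0 pol_coeff1 pol_coeff2)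

section

variable {F : Type} [Field F] [NumberField F]

/-- The polynomial form of a Selmer class of `y ^ 2 = x ^ 3 + A x + B`. -/
structure SelP (A B : F) (h : F[X]) : Prop where
  cop : IsCoprime h (cu A B)
  norm : IsSquare (Algebra.norm F (AdjoinRoot.mk (cu A B) h))
  loc : ∀ w : HeightOneSpectrum (𝓞 F), LocF (w.adicCompletion F) (cu A B) h
  real : ∀ σ : F →+* ℝ, LocIm ℝ ((cu A B).map σ) (h.map σ)

/-- The class is trivial. -/
def Tri (A B : F) (h : F[X]) : Prop := ∃ s : F[X], cu A B ∣ h - s ^ 2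

/-- The scaled polynomial. -/
noncomputable def sc (a b : 𝓞 F) : (𝓞 F)[X] := pol (16 * a) (64 * b)

theorem fF_sc (a b : 𝓞 F) : fF (sc a b) = cu (16 * (a : F)) (64 * (b : F)) := by
  unfold sc pol fF cu
  simp only [Polynomial.map_add, Polynomial.map_mul, Polynomial.map_pow, map_X, map_C, map_mul,
    map_ofNat, Polynomial.map_ofNat]

/-- The bad classes of pairs. -/
def TT (F : Type) [Field F] [NumberField F] (N c : ℕ) : Set (Cp F 1) :=
  {q : Cp F 1 | ∃ w, Typ 1 w ∧ Gap 1 N w ∧ (Mid 1 N w ∨ Deep 1 N c w) ∧ q ∈ Pc F 1 N c w}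

theorem gen_sc {a b : 𝓞 F} (hirr : Irreducible (cu (a : F) (b : F))) :
    ∃ (L : Type) (_ : Field L) (_ : NumberField L) (_ : Algebra F L) (θ : L)
      (φ : AdjoinRoot (cu (a : F) (b : F)) ≃ₐ[F] L), IsGen 1 (sc a b) θ ∧
      ∀ h : F[X], aeval θ (h.comp (C 4⁻¹ * X)) = φ (AdjoinRoot.mk _ h) := by
  haveI : Fact (Irreducible (cu (a : F) (b : F))) := ⟨hirr⟩
  have hm' : (cu (a : F) (b : F)).Monic := cu_monic _ _
  have hd' : (cu (a : F) (b : F)).natDegree = 3 := cu_deg _ _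
  haveI : FiniteDimensional F (AdjoinRoot (cu (a : F) (b : F))) := hm'.finite_adjoinRoot
  haveI : CharZero (AdjoinRoot (cu (a : F) (b : F))) :=
    charZero_of_injective_algebraMap (R := F) (algebraMap F _).injective
  haveI : FiniteDimensional ℚ (AdjoinRoot (cu (a : F) (b : F))) := FiniteDimensional.trans ℚ F _
  haveI : NumberField (AdjoinRoot (cu (a : F) (b : F))) := { }
  obtain ⟨r, hr⟩ : ∃ r : AdjoinRoot (cu (a : F) (b : F)), r = AdjoinRoot.root _ := ⟨_, rfl⟩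
  have hroot : aeval r (cu (a : F) (b : F)) = 0 := by
    rw [hr, aeval_def]
    exact AdjoinRoot.eval₂_root _
  have h4 : (4 : AdjoinRoot (cu (a : F) (b : F))) = algebraMap F _ 4 := by rw [map_ofNat]
  have h40 : (4 : AdjoinRoot (cu (a : F) (b : F))) ≠ 0 := by norm_num
  have hev : ∀ h : F[X], aeval (4 * r) (h.comp (C 4⁻¹ * X)) = AdjoinRoot.mk _ h := by
    intro h
    rw [aeval_comp, map_mul, aeval_C, aeval_X, map_inv₀, ← h4, inv_mul_cancel_left₀ h40, hr]
    exact AdjoinRoot.aeval_eq h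
  refine ⟨AdjoinRoot (cu (a : F) (b : F)), inferInstance, inferInstance, inferInstance,
    4 * r, AlgEquiv.refl, ⟨pol_monic _ _, pol_natDegree _ _, ?_, ?_, ?_⟩, fun h => hev h⟩
  · rw [fF_sc]
    have h1 : (cu (16 * (a : F)) (64 * (b : F))) = C 64 * (cu (a : F) (b : F)).comp (C 4⁻¹ * X) := by
      rw [Pool.Agent.H459.UD.comp_cu', ← mul_assoc, ← C_mul]
      norm_num
    rw [h1, map_mul, hev, AdjoinRoot.mk_self, mul_zero]
  · rw [(AdjoinRoot.powerBasis hm'.ne_zero).finrank, AdjoinRoot.powerBasis_dim, hd']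
  · intro x
    obtain ⟨p, rfl⟩ := AdjoinRoot.mk_surjective x
    obtain ⟨c₀, c₁, c₂, hc⟩ := Pool.Agent.H459.UT.cub_rep (a : F) (b : F) p
    refine ⟨![c₀, c₁ / 4, c₂ / 16], ?_⟩
    have e1 : AdjoinRoot.mk (cu (a : F) (b : F)) p =
        AdjoinRoot.mk _ (C c₀ + C c₁ * X + C c₂ * X ^ 2) := by
      rw [← sub_eq_zero, ← map_sub, AdjoinRoot.mk_eq_zero]
      exact hc
    have e2 : AdjoinRoot.mk (cu (a : F) (b : F)) (C c₀ + C c₁ * X + C c₂ * X ^ 2) =
        algebraMap F _ c₀ + algebraMap F _ c₁ * r + algebraMap F _ c₂ * r ^ 2 := by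
      rw [← AdjoinRoot.aeval_eq, map_add, map_add, map_mul, map_mul, map_pow, aeval_C, aeval_C,
        aeval_C, aeval_X, ← hr]
    rw [e1, e2]
    have e3 : (∑ i : Fin (2 * 1 + 1), algebraMap F (AdjoinRoot (cu (a : F) (b : F)))
        (![c₀, c₁ / 4, c₂ / 16] i) * (4 * r) ^ (i : ℕ)) =
        ∑ i : Fin 3, algebraMap F (AdjoinRoot (cu (a : F) (b : F)))
        (![c₀, c₁ / 4, c₂ / 16] i) * (4 * r) ^ (i : ℕ) := rfl
    rw [e3, Fin.sum_univ_three]
    simp only [Matrix.cons_val_zero, Matrix.cons_val_one, Matrix.cons_val, Fin.val_zero,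
      Fin.val_one, Fin.val_two, pow_zero, pow_one, mul_one, map_div₀, map_ofNat]
    have h160 : (16 : AdjoinRoot (cu (a : F) (b : F))) ≠ 0 := by norm_num
    field_simp
    ring

/-- **From the Selmer classes to classes of pairs.** -/
theorem cls (F : Type) [Field F] [NumberField F] : ∃ κ : ℕ, ∀ (B N : ℕ) (a b : 𝓞 F),
    Irreducible (cu (a : F) (b : F)) → Ht 1 B (sc a b) → 2 ^ κ * B ≤ 4 ^ N →
    ∃ Φ : F[X] → Cp F 1,
      (∀ h, SelP (a : F) (b : F) h → ¬ Tri (a : F) (b : F) h → Φ h ∈ TT F N κ ∧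
        ∀ A B', Φ h = cp A B' → chp A B' = fF (sc a b)) ∧
      ∀ h h', SelP (a : F) (b : F) h → SelP (a : F) (b : F) h' → ¬ Tri (a : F) (b : F) h →
        ¬ Tri (a : F) (b : F) h' → Φ h = Φ h' → Tri (a : F) (b : F) (h * h') := by
  obtain ⟨κ, hκ⟩ := lbA 1 F le_rfl
  refine ⟨κ, fun B N a b hirr hHt hBN => ?_⟩
  obtain ⟨L, _, _, _, θ, φ, hG, hφ⟩ := gen_sc hirr
  haveI : Fact (Irreducible (cu (a : F) (b : F))) := ⟨hirr⟩
  have hirr' := Pool.Agent.N438.PF.irrF hG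
  have hsq : ∀ h : F[X], IsSquare (aeval θ (h.comp (C 4⁻¹ * X))) ↔ Tri (a : F) (b : F) h := by
    intro h
    rw [hφ]
    constructor
    · rintro ⟨s, hs⟩
      obtain ⟨p, hp⟩ := AdjoinRoot.mk_surjective (φ.symm s)
      refine ⟨p, ?_⟩
      rw [← AdjoinRoot.mk_eq_zero, map_sub, sub_eq_zero, map_pow, hp]
      apply φ.injective
      rw [hs, map_pow, φ.apply_symm_apply, sq]
    · rintro ⟨s, hs⟩
      rw [← AdjoinRoot.mk_eq_zero, map_sub, sub_eq_zero, map_pow] at hs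
      rw [hs, map_pow]
      exact ⟨_, sq _⟩
  have hmap : ∀ (E : Type) [Field E] [CharZero E] (j : F →+* E) (h : F[X]),
      LocIm E ((cu (a : F) (b : F)).map j) (h.map j) →
      LocIm E ((cu (16 * (a : F)) (64 * (b : F))).map j) ((h.comp (C 4⁻¹ * X)).map j) := by
    intro E _ _ j h H
    have e1 : (cu (a : F) (b : F)).map j = cu (j a) (j b) := by
      unfold cu
      simp
    have e2 : (cu (16 * (a : F)) (64 * (b : F))).map j = cu (16 * j a) (64 * j b) := by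
      unfold cu
      rw [← map_ofNat j 16, ← map_ofNat j 64]
      simp only [Polynomial.map_add, Polynomial.map_mul, Polynomial.map_pow, map_X, map_C, map_mul]
    have e3 : (h.comp (C 4⁻¹ * X)).map j = (h.map j).comp (C 4⁻¹ * X) := by
      rw [Polynomial.map_comp, Polynomial.map_mul, map_C, map_X, map_inv₀, map_ofNat]
    rw [e1] at H
    rw [e2, e3]
    exact Pool.Agent.H459.UD.loc_sc H
  have hex : ∀ h : F[X], ∃ q : Cp F 1, SelP (a : F) (b : F) h → ¬ Tri (a : F) (b : F) h →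
      aeval θ (h.comp (C 4⁻¹ * X)) ≠ 0 ∧
      q ∈ TT F N κ ∧ ∃ (A A' : Mt 1 (𝓞 F)) (e : Fin (2 * 1 + 1) → L),
        LinearIndependent F e ∧ Gr hG (aeval θ (h.comp (C 4⁻¹ * X))) e A A' ∧
        chp (mF A) (mF A') = fF (sc a b) ∧ q = cp (mF A) (mF A') := by
    intro h
    by_cases hh : SelP (a : F) (b : F) h ∧ ¬ Tri (a : F) (b : F) h
    · obtain ⟨hS, hT⟩ := hh
      have h0 : aeval θ (h.comp (C 4⁻¹ * X)) ≠ 0 := by
        rw [hφ]
        intro h1
        have h2 : AdjoinRoot.mk (cu (a : F) (b : F)) h = 0 := by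
          apply φ.injective
          rw [h1, map_zero]
        rw [AdjoinRoot.mk_eq_zero] at h2
        exact hirr.not_isUnit (hS.cop.isUnit_of_dvd' h2 dvd_rfl)
      have hN : IsSquare (Algebra.norm F (aeval θ (h.comp (C 4⁻¹ * X)))) := by
        rw [hφ, Algebra.norm_eq_of_algEquiv]
        exact hS.norm
      have hl : ∀ w : HeightOneSpectrum (𝓞 F),
          LocF (w.adicCompletion F) (fF (sc a b)) (h.comp (C 4⁻¹ * X)) := by
        intro w
        haveI := Pool.Agent.H459.UT.charzero_cpt w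
        rw [fF_sc]
        exact hmap _ _ _ (hS.loc w)
      obtain ⟨Λ, hΛ⟩ := sel_lat hG (fF_sc a b) h0 hN hl
      obtain ⟨w, w1, w2, w3, A, A', e, x1, x2, x3, x4⟩ := hκ L (sc a b) θ B N hG hHt hBN _ Λ h0 hN
        hΛ (fun h1 => hT ((hsq h).1 h1))
      exact ⟨cp (mF A) (mF A'), fun _ _ => ⟨h0, ⟨w, w1, w2, w3, A, A', x1, by rw [x4]; exact hirr',
        rfl⟩, A, A', e, x2, x3, x4, rfl⟩⟩
    · exact ⟨cp 0 0, fun h1 h2 => absurd ⟨h1, h2⟩ hh⟩
  choose Φ hΦ using hex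
  refine ⟨Φ, fun h hS hT => ?_, fun h h' hS hS' hT hT' he => ?_⟩
  · obtain ⟨-, h1, A, A', e, -, -, h2, h3⟩ := hΦ h hS hT
    refine ⟨h1, fun A₁ B₁ h4 => ?_⟩
    rw [← h2]
    rw [h3] at h4
    exact (cp_eq.1 h4).chp_eq
  · obtain ⟨h0, -, A, A', e, h1, h2, -, h3⟩ := hΦ h hS hT
    obtain ⟨h0', -, A₁, A₁', e', h1', h2', -, h3'⟩ := hΦ h' hS' hT'
    rw [← hsq, mul_comp, map_mul]
    exact sq_of_eqv hG h0 h0' h1 h1' h2 h2' (by rw [← h3, ← h3', he])

end

end Pool.Agent.H459.AV
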