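import Pool.Agent.H459.AV.Coh

/-!
# The total number of the Selmer classes (helper459)
-/

set_option autoImplicit false
set_option linter.all false

open Polynomial IsDedekindDomain Matrix NumberField
open scoped Classical

namespace Pool.Agent.H459.AV

open Pool.Agent.N783.PF
open Pool.Agent.N352.PJ (Mt Typ dd)
open Pool.Agent.N783.PQ (chp Gap Mid Deep LocIm)
open Pool.Agent.N874.PP (sW)
open Pool.Agent.H459.UF (cu cu_monic cu_deg)
open Pool.Agent.N61.PF (pol pol_natDegree pol_monic pol_coeff0 pol_coeff1 pol_coeff2)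

section

variable {F : Type} [Field F] [NumberField F]

theorem disc_cu {A B : F} (h : Irreducible (cu A B)) : 4 * A ^ 3 + 27 * B ^ 2 ≠ 0 :=
  Pool.Agent.N61.PF.disc_ne h

/-- The Selmer classes of the curves `T` and the classes of pairs. -/
theorem sel_inj {κ B N : ℕ} (hκ : ∀ (a b : 𝓞 F),
    Irreducible (cu (a : F) (b : F)) → Ht 1 B (sc a b) →
    ∃ Φ : F[X] → Cp F 1,
      (∀ h, SelP (a : F) (b : F) h → ¬ Tri (a : F) (b : F) h → Φ h ∈ TT F N κ ∧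
        ∀ A B', Φ h = cp A B' → chp A B' = fF (sc a b)) ∧
      ∀ h h', SelP (a : F) (b : F) h → SelP (a : F) (b : F) h' → ¬ Tri (a : F) (b : F) h →
        ¬ Tri (a : F) (b : F) h' → Φ h = Φ h' → Tri (a : F) (b : F) (h * h'))
    (hfin : (TT F N κ).Finite)
    (T : Finset (𝓞 F × 𝓞 F))
    (hT : ∀ p ∈ T, Irreducible (cu (p.1 : F) (p.2 : F)) ∧ Ht 1 B (sc p.1 p.2)) :
    (∀ p ∈ T, Finite (Sel2 (sW (p.1 : F) (p.2 : F)))) ∧
    ∑ p ∈ T, Nat.card (Sel2 (sW (p.1 : F) (p.2 : F))) ≤ T.card + (TT F N κ).ncard := by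
  have h1 : ∀ p : T, ∃ (Φ : F[X] → Cp F 1)
      (H : {f : (Pool.Agent.TH115.GD.Sep F ≃ₐ[F] Pool.Agent.TH115.GD.Sep F) →
        Pool.Agent.TH115.GD.Pt (sW (p.1.1 : F) (p.1.2 : F)) (Pool.Agent.TH115.GD.Sep F) //
        SelCoc (sW (p.1.1 : F) (p.1.2 : F)) f} → F[X]),
      ((∀ h, SelP (p.1.1 : F) (p.1.2 : F) h → ¬ Tri (p.1.1 : F) (p.1.2 : F) h → Φ h ∈ TT F N κ ∧
        ∀ A B', Φ h = cp A B' → chp A B' = fF (sc p.1.1 p.1.2)) ∧
      ∀ h h', SelP (p.1.1 : F) (p.1.2 : F) h → SelP (p.1.1 : F) (p.1.2 : F) h' →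
        ¬ Tri (p.1.1 : F) (p.1.2 : F) h → ¬ Tri (p.1.1 : F) (p.1.2 : F) h' → Φ h = Φ h' →
        Tri (p.1.1 : F) (p.1.2 : F) (h * h')) ∧
      ((∀ f, SelP (p.1.1 : F) (p.1.2 : F) (H f)) ∧
        (∀ f, Tri (p.1.1 : F) (p.1.2 : F) (H f) →
          Cob (sW (p.1.1 : F) (p.1.2 : F)) f.1 (fun _ => 0)) ∧
        ∀ f f', Tri (p.1.1 : F) (p.1.2 : F) (H f * H f') →
          Cob (sW (p.1.1 : F) (p.1.2 : F)) f.1 f'.1) := by
    intro p
    obtain ⟨Φ, hΦ⟩ := hκ p.1.1 p.1.2 (hT p.1 p.2).1 (hT p.1 p.2).2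
    obtain ⟨H, hH⟩ := coc_pol (disc_cu (hT p.1 p.2).1) (hT p.1 p.2).1
    exact ⟨Φ, H, hΦ, hH⟩
  choose Φ H hΦ hH using h1
  haveI : Finite (TT F N κ) := hfin.to_subtype
  let Ψ : (Σ p : T, Sel2 (sW (p.1.1 : F) (p.1.2 : F))) → T ⊕ TT F N κ := fun z =>
    if h : Tri (z.1.1.1 : F) (z.1.1.2 : F) (H z.1 z.2.out) then Sum.inl z.1
    else Sum.inr ⟨Φ z.1 (H z.1 z.2.out), ((hΦ z.1).1 _ ((hH z.1).1 _) h).1⟩
  have hout : ∀ (p : T) (x y : Sel2 (sW (p.1.1 : F) (p.1.2 : F))),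
      Cob (sW (p.1.1 : F) (p.1.2 : F)) x.out.1 y.out.1 → x = y := by
    intro p x y hc
    rw [← Quotient.out_eq x, ← Quotient.out_eq y]
    exact Quotient.sound hc
  have hΨ : Function.Injective Ψ := by
    rintro ⟨p, x⟩ ⟨p', x'⟩ he
    by_cases hx : Tri (p.1.1 : F) (p.1.2 : F) (H p x.out)
    · have e1 : Ψ ⟨p, x⟩ = Sum.inl p := dif_pos hx
      by_cases hx' : Tri (p'.1.1 : F) (p'.1.2 : F) (H p' x'.out)
      · have e2 : Ψ ⟨p', x'⟩ = Sum.inl p' := dif_pos hx'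
        rw [e1, e2] at he
        have hp : p = p' := Sum.inl_injective he
        subst hp
        rw [hout p x x' (((hH p).2.1 _ hx).trans ((hH p).2.1 _ hx').symm)]
      · have e2 : Ψ ⟨p', x'⟩ = Sum.inr ⟨Φ p' (H p' x'.out), _⟩ := dif_neg hx'
        rw [e1, e2] at he
        exact absurd he (by simp)
    · have e1 : Ψ ⟨p, x⟩ = Sum.inr ⟨Φ p (H p x.out), _⟩ := dif_neg hx
      by_cases hx' : Tri (p'.1.1 : F) (p'.1.2 : F) (H p' x'.out)
      · have e2 : Ψ ⟨p', x'⟩ = Sum.inl p' := dif_pos hx'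
        rw [e1, e2] at he
        exact absurd he (by simp)
      · have e2 : Ψ ⟨p', x'⟩ = Sum.inr ⟨Φ p' (H p' x'.out), _⟩ := dif_neg hx'
        rw [e1, e2] at he
        have hq : Φ p (H p x.out) = Φ p' (H p' x'.out) :=
          congrArg Subtype.val (Sum.inr_injective he)
        have hp : p = p' := by
          obtain ⟨⟨A, B'⟩, hAB⟩ := Quotient.exists_rep (Φ p (H p x.out))
          have hAB' : Φ p (H p x.out) = cp A B' := hAB.symm
          have c1 := ((hΦ p).1 _ ((hH p).1 _) hx).2 A B' hAB'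
          have c2 := ((hΦ p').1 _ ((hH p').1 _) hx').2 A B' (by rw [← hq]; exact hAB')
          have c3 : fF (sc p.1.1 p.1.2) = fF (sc p'.1.1 p'.1.2) := by rw [← c1, ← c2]
          have c4 : sc p.1.1 p.1.2 = sc p'.1.1 p'.1.2 :=
            Polynomial.map_injective (algebraMap (𝓞 F) F) RingOfIntegers.coe_injective c3
          unfold sc at c4
          have c5 := congrArg (fun f : (𝓞 F)[X] => f.coeff 1) c4
          have c6 := congrArg (fun f : (𝓞 F)[X] => f.coeff 0) c4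
          simp only [pol_coeff1, pol_coeff0] at c5 c6
          have h16 : (16 : 𝓞 F) ≠ 0 := by norm_num
          have h64 : (64 : 𝓞 F) ≠ 0 := by norm_num
          exact Subtype.ext (Prod.ext (mul_left_cancel₀ h16 c5) (mul_left_cancel₀ h64 c6))
        subst hp
        have hc := (hΦ p).2 _ _ ((hH p).1 _) ((hH p).1 _) hx hx' hq
        rw [hout p x x' ((hH p).2.2 _ _ hc)]
  haveI hfS : Finite (Σ p : T, Sel2 (sW (p.1.1 : F) (p.1.2 : F))) := Finite.of_injective Ψ hΨ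
  have hfin1 : ∀ p : T, Finite (Sel2 (sW (p.1.1 : F) (p.1.2 : F))) := fun p =>
    Finite.of_injective (fun x => (⟨p, x⟩ : Σ p : T, Sel2 (sW (p.1.1 : F) (p.1.2 : F))))
      (fun x y h => eq_of_heq (Sigma.mk.inj_iff.1 h).2)
  refine ⟨fun p hp => hfin1 ⟨p, hp⟩, ?_⟩
  have h2 := Nat.card_le_card_of_injective Ψ hΨ
  haveI := hfin1
  rw [Nat.card_sum, Nat.card_coe_set_eq, Nat.card_sigma, Nat.card_eq_fintype_card,
    Fintype.card_coe] at h2
  rw [← Finset.sum_coe_sort T (fun p => Nat.card (Sel2 (sW (p.1 : F) (p.2 : F))))]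
  exact h2

/-- **The total number of the Selmer classes.** -/
theorem total (F : Type) [Field F] [NumberField F] : ∃ C : ℕ, ∀ B : ℕ, 1 ≤ B →
    ∀ T : Finset (𝓞 F × 𝓞 F),
    (∀ p ∈ T, Irreducible (cu (p.1 : F) (p.2 : F)) ∧ Ht 1 B (sc p.1 p.2)) →
    (∀ p ∈ T, Finite (Sel2 (sW (p.1 : F) (p.2 : F)))) ∧
    ∑ p ∈ T, Nat.card (Sel2 (sW (p.1 : F) (p.2 : F))) ≤
      T.card + C * B ^ (5 * Module.finrank ℚ F) := by
  obtain ⟨κ, hκ⟩ := cls F
  obtain ⟨C₁, N₀, hC₁⟩ := badA F 1 κ le_rfl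
  obtain ⟨d, hd⟩ : ∃ d, d = Module.finrank ℚ F := ⟨_, rfl⟩
  rw [← hd] at hC₁ ⊢
  refine ⟨C₁ * (4 ^ (N₀ + κ) * 4) ^ (5 * d), fun B hB T hT => ?_⟩
  obtain ⟨N, hN⟩ : ∃ N, N = N₀ + κ + Nat.clog 4 B := ⟨_, rfl⟩
  have h1 : B ≤ 4 ^ Nat.clog 4 B := Nat.le_pow_clog (by norm_num) B
  have h2 : 4 ^ Nat.clog 4 B ≤ 4 * B := by
    rcases Nat.lt_or_ge 1 B with h | h
    · have h3 := Nat.pow_pred_clog_lt_self (b := 4) (by norm_num) h
      have h4 : 0 < Nat.clog 4 B := Nat.clog_pos (by norm_num) h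
      calc 4 ^ Nat.clog 4 B = 4 * 4 ^ (Nat.clog 4 B).pred := by
            rw [← pow_succ']
            congr 1
            rw [Nat.pred_eq_sub_one]
            omega
        _ ≤ 4 * B := Nat.mul_le_mul_left _ h3.le
    · have : B = 1 := by omega
      rw [this]
      simp
  have h3 : 2 ^ κ * B ≤ 4 ^ N := by
    rw [hN, pow_add, pow_add]
    calc 2 ^ κ * B ≤ 4 ^ κ * 4 ^ Nat.clog 4 B :=
          Nat.mul_le_mul (Nat.pow_le_pow_left (by norm_num) _) h1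
      _ ≤ 4 ^ N₀ * (4 ^ κ * 4 ^ Nat.clog 4 B) := Nat.le_mul_of_pos_left _ (by positivity)
      _ = _ := by ring
  have h4 : 4 ^ N ≤ 4 ^ (N₀ + κ) * 4 * B := by
    rw [hN, pow_add 4 (N₀ + κ), mul_assoc]
    exact Nat.mul_le_mul_left _ h2
  obtain ⟨hfin, hcard⟩ := hC₁ N (by omega)
  obtain ⟨h5, h6⟩ := sel_inj (κ := κ) (B := B) (N := N) (fun a b hi hh => hκ B N a b hi hh h3)
    hfin T hT
  refine ⟨h5, h6.trans (Nat.add_le_add_left (hcard.trans ?_) _)⟩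
  have e1 : dd 1 = 5 := rfl
  calc C₁ * 2 ^ (d * (2 * N * dd 1)) = C₁ * (4 ^ N) ^ (5 * d) := by
        rw [e1, show (4 : ℕ) = 2 ^ 2 by norm_num, ← pow_mul, ← pow_mul]
        congr 2
        ring
    _ ≤ C₁ * (4 ^ (N₀ + κ) * 4 * B) ^ (5 * d) :=
        Nat.mul_le_mul_left _ (Nat.pow_le_pow_left h4 _)
    _ = _ := by
        rw [mul_pow (4 ^ (N₀ + κ) * 4) B]
        ring

end

end Pool.Agent.H459.AV
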