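import Pool.Agent.H459.AV.Cls

/-!
# The 2-Selmer group in terms of cocycles (helper459)
-/

set_option autoImplicit false
set_option linter.all false

open Polynomial IsDedekindDomain NumberField
open scoped Classical

namespace Pool.Agent.H459.AV

open Pool.Agent.N783.PF
open Pool.Agent.N783.PQ (LocIm)
open Pool.Agent.N874.JM (LocF)
open Pool.Agent.N874.PP (sW IsBeta sg Rt)
open Pool.Agent.N874.QM (IsLoc)
open Pool.Agent.TH115.GD (Pt act rs IsCoc LocTriv Comp Sep)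
open Pool.Agent.H459.UF (cu cu_monic cu_deg)

section

variable {M : Type} [Field M] [NumberField M]

/-- The cocycle `f` with values in the points of order two of `W` is a coboundary in `W` at all
places of `M`. -/
structure SelCoc (W : WeierstrassCurve M) (f : (Sep M ≃ₐ[M] Sep M) → Pt W (Sep M)) : Prop where
  coc : IsCoc W f
  two : ∀ σ, (2 : ℕ) • f σ = 0
  loc : IsLoc W f

/-- The cocycles `f` and `f'` with values in the points of order two are cohomologous. -/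
def Cob (W : WeierstrassCurve M) (f f' : (Sep M ≃ₐ[M] Sep M) → Pt W (Sep M)) : Prop :=
  ∃ T : Pt W (Sep M), (2 : ℕ) • T = 0 ∧ ∀ σ, f σ - f' σ = act W (rs M σ) T - T

theorem Cob.refl (W : WeierstrassCurve M) (f : (Sep M ≃ₐ[M] Sep M) → Pt W (Sep M)) : Cob W f f :=
  ⟨0, smul_zero _, fun σ => by rw [sub_self, map_zero, sub_zero]⟩

theorem Cob.symm {W : WeierstrassCurve M} {f f' : (Sep M ≃ₐ[M] Sep M) → Pt W (Sep M)}
    (h : Cob W f f') : Cob W f' f := by
  obtain ⟨T, hT, h⟩ := h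
  refine ⟨-T, by rw [smul_neg, hT, neg_zero], fun σ => ?_⟩
  rw [map_neg, ← neg_sub (f σ), h]
  abel

theorem Cob.trans {W : WeierstrassCurve M} {f f' f'' : (Sep M ≃ₐ[M] Sep M) → Pt W (Sep M)}
    (h : Cob W f f') (h' : Cob W f' f'') : Cob W f f'' := by
  obtain ⟨T, hT, h⟩ := h
  obtain ⟨T', hT', h'⟩ := h'
  refine ⟨T + T', by rw [smul_add, hT, hT', add_zero], fun σ => ?_⟩
  rw [← sub_add_sub_cancel (f σ) (f' σ) (f'' σ), h, h', map_add]
  abel

/-- The Selmer cocycles up to coboundaries. -/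
def selSetoid (W : WeierstrassCurve M) :
    Setoid {f : (Sep M ≃ₐ[M] Sep M) → Pt W (Sep M) // SelCoc W f} :=
  ⟨fun f f' => Cob W f.1 f'.1, fun f => Cob.refl W f.1, fun h => h.symm, fun h h' => h.trans h'⟩

/-- The 2-Selmer group. -/
def Sel2 (W : WeierstrassCurve M) : Type := Quotient (selSetoid W)

theorem locF_congr {P P' : M[X]} (h : P = P') {K : Type} [Field K] [Algebra M K] {q : M[X]}
    (H : LocF K P q) : LocF K P' q := by
  subst h
  exact H

/-- From the cocycles to polynomials. -/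
theorem coc_pol {A B : M} (hd : 4 * A ^ 3 + 27 * B ^ 2 ≠ 0) (hirr : Irreducible (cu A B)) :
    ∃ H : {f : (Sep M ≃ₐ[M] Sep M) → Pt (sW A B) (Sep M) // SelCoc (sW A B) f} → M[X],
      (∀ f, SelP A B (H f)) ∧ (∀ f, Tri A B (H f) → Cob (sW A B) f.1 (fun _ => 0)) ∧
      ∀ f f', Tri A B (H f * H f') → Cob (sW A B) f.1 f'.1 := by
  have h6 : (6 : M) ≠ 0 := by norm_num
  have hgp1 := Pool.Agent.N630.PP.gp1
  have hgp2 := Pool.Agent.N630.PP.gp2
  have hgp3 := Pool.Agent.N630.PP.gp3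
  have hgp4 := Pool.Agent.N630.PP.gp4
  have hGLF := Pool.Agent.N42.QM.glf hgp1 hgp2 hgp3 hgp4
  have hFARC := Pool.Agent.N530.QM.farc
  have hFARR := Pool.Agent.N42.QM.farr
  have hirr' : Irreducible (X ^ 3 + C A * X + C B : M[X]) := hirr
  haveI : Fact (Irreducible (X ^ 3 + C A * X + C B : M[X])) := ⟨hirr'⟩
  have hdeg : (X ^ 3 + C A * X + C B : M[X]).natDegree = 3 := by compute_degree!
  have ht : Rt A B (AdjoinRoot.root (X ^ 3 + C A * X + C B : M[X])) := by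
    have h1 := AdjoinRoot.eval₂_root (X ^ 3 + C A * X + C B : M[X])
    rw [eval₂_add, eval₂_add, eval₂_mul, eval₂_pow, eval₂_X, eval₂_C, eval₂_C] at h1
    exact h1
  have hL : Module.finrank M (AdjoinRoot (X ^ 3 + C A * X + C B : M[X])) = 3 := by
    rw [(AdjoinRoot.powerBasis hirr'.ne_zero).finrank, AdjoinRoot.powerBasis_dim, hdeg]
  have he : ∀ q : M[X], aeval (AdjoinRoot.root (X ^ 3 + C A * X + C B : M[X])) q =
      AdjoinRoot.mk (X ^ 3 + C A * X + C B : M[X]) q := fun q => AdjoinRoot.aeval_eq q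
  have hβ : ∀ f : {f : (Sep M ≃ₐ[M] Sep M) → Pt (sW A B) (Sep M) // SelCoc (sW A B) f},
      ∃ β : Sep M → Sep M, IsBeta A B f.1 β := fun f =>
    Pool.Agent.N187.PP.gb hgp3 hgp4 M A B h6 hd hirr' f.1 f.2.coc f.2.two
  choose β hβ using hβ
  have hH : ∀ f : {f : (Sep M ≃ₐ[M] Sep M) → Pt (sW A B) (Sep M) // SelCoc (sW A B) f},
      ∃ h : M[X], (∀ t : Sep M, Rt A B t → aeval t h = β f t ^ 2) ∧
      (∀ (L : Type) [Field L] [Algebra M L] (t : L), Rt A B t → Module.finrank M L = 3 →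
      aeval t h ≠ 0 ∧ IsSquare (Algebra.norm M (aeval t h))) := fun f =>
    Pool.Agent.N187.PP.gn hgp3 hgp4 M A B h6 hd hirr' f.1 f.2.coc f.2.two (β f) (hβ f)
  choose H hH hn using hH
  have hgt := Pool.Agent.N187.PP.gt hgp3 hgp4
  have hsq : ∀ h : M[X], Tri A B h → IsSquare
      (aeval (AdjoinRoot.root (X ^ 3 + C A * X + C B : M[X])) h) := by
    rintro h ⟨s, hs⟩
    rw [he]
    refine ⟨AdjoinRoot.mk _ s, ?_⟩
    have h1 := AdjoinRoot.mk_eq_zero.2 hs
    rw [map_sub, map_pow, sub_eq_zero] at h1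
    rw [← sq]
    exact h1
  refine ⟨H, fun f => ?_, fun f hT => ?_, fun f f' hT => ?_⟩
  · obtain ⟨hn1, hn2⟩ := hn f _ _ ht hL
    rw [he] at hn1 hn2
    have hcop : IsCoprime (H f) (X ^ 3 + C A * X + C B) := by
      rw [isCoprime_comm, hirr'.coprime_iff_not_dvd, ← AdjoinRoot.mk_eq_zero]
      exact hn1
    refine ⟨hcop, hn2, fun w => ?_, fun ρ => ?_⟩
    · exact Pool.Agent.N521.QM.ploc_locF (hGLF M (Comp (𝓞 M) M w) A B h6 hd f.1 f.2.coc f.2.two
        (β f) (H f) (hβ f) (hH f) (hFARC M A B hd w) (f.2.loc.fin w))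
    · letI := ρ.toAlgebra
      exact Pool.Agent.N521.QM.ploc_locF (hGLF M ℝ A B h6 hd f.1 f.2.coc f.2.two (β f) (H f)
        (hβ f) (hH f) (hFARR M A B hd) (f.2.loc.real ρ))
  · obtain ⟨T, hT1, hT2⟩ := hgt M A B h6 hd hirr' f.1 f.2.coc f.2.two (β f) (H f) (hβ f) (hH f) _ _
      ht hL (hsq _ hT)
    exact ⟨T, hT1, fun σ => by rw [sub_zero, hT2]⟩
  · have hcoc : IsCoc (sW A B) (fun σ => f.1 σ - f'.1 σ) := by
      refine ⟨f.2.coc.lc.sub f'.2.coc.lc, fun σ τ => ?_⟩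
      beta_reduce
      rw [f.2.coc.mul, f'.2.coc.mul, map_sub]
      abel
    have htwo : ∀ σ, (2 : ℕ) • (f.1 σ - f'.1 σ) = 0 := fun σ => by
      rw [smul_sub, f.2.two, f'.2.two, sub_zero]
    obtain ⟨t₁, t₂, t₃, n1, n2, n3, r1, r2, r3, -⟩ :=
      Pool.Agent.N187.PP.exists_roots (A := A) (B := B) h6 hirr'
    have hadd : ∀ σ, f.1 σ - f'.1 σ = f.1 σ + f'.1 σ := fun σ => by
      have h1 : -f'.1 σ = f'.1 σ := by
        rw [neg_eq_iff_add_eq_zero, ← two_nsmul]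
        exact f'.2.two σ
      rw [sub_eq_add_neg, h1]
    have hbeta : IsBeta A B (fun σ => f.1 σ - f'.1 σ) (fun t => β f t * β f' t) := by
      intro t ht
      refine ⟨mul_ne_zero (hβ f t ht).1 (hβ f' t ht).1, fun σ => ?_⟩
      beta_reduce
      rw [hadd, (hgp3 M (Sep M) A B h6 hd t₁ t₂ t₃ r1 r2 r3 n1 n2 n3).2.1 _ _ (σ t) (f.2.two σ)
        (f'.2.two σ) (Pool.Agent.N187.PP.rt_map' σ ht), map_mul, (hβ f t ht).2 σ,
        (hβ f' t ht).2 σ]
      ring
    have hH2 : ∀ t : Sep M, Rt A B t → aeval t (H f * H f') = (β f t * β f' t) ^ 2 := by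
      intro t ht
      rw [map_mul, hH f t ht, hH f' t ht, mul_pow]
    exact hgt M A B h6 hd hirr' (fun σ => f.1 σ - f'.1 σ) hcoc htwo (fun t => β f t * β f' t)
      (H f * H f') hbeta hH2 _ _ ht hL (hsq _ hT)

end

end Pool.Agent.H459.AV
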