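import Pool.Agent.H459.AV.Coh
import Pool.Graph.R_seed8.W505.RK.RKB

/-!
# The rank is at most the 2-Selmer rank (helper459)
-/

set_option autoImplicit false
set_option linter.all false

open Polynomial IsDedekindDomain NumberField WeierstrassCurve WeierstrassCurve.Affine
open scoped Classical

namespace Pool.Agent.H459.AV

open Pool.Agent.N874.PP (sW)
open Pool.Agent.N874.QM (IsLoc)
open Pool.Agent.TH115.GD
open Pool.Agent.N721.PP (half)
open Pool.Agent.N713.QM (isLoc_cob)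

section

variable {M : Type} [Field M] [NumberField M]

/-- The Kummer map. -/
theorem kummer {A B : M} (hd : 4 * A ^ 3 + 27 * B ^ 2 ≠ 0) :
    ∃ κ : Pt (sW A B) M → Sel2 (sW A B), ∀ P P', κ P = κ P' → ∃ R, P = P' + (R + R) := by
  have h6 : (6 : M) ≠ 0 := by norm_num
  haveI : Algebra.IsSeparable M (Sep M) := IsSepClosure.separable
  haveI : IsGalois M (Sep M) := inferInstance
  have hex : ∀ P : Pt (sW A B) M, ∃ Q : Pt (sW A B) (Sep M),
      Q + Q = act (sW A B) (incl M M (Sep M)) P := fun P => half h6 hd _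
  choose Q hQ using hex
  have hfix : ∀ P (σ : Sep M ≃ₐ[M] Sep M), act (sW A B) (rs M σ) (Q P + Q P) = Q P + Q P := by
    intro P σ
    rw [hQ]
    exact rs_act_incl _ σ P
  have hsel : ∀ P, SelCoc (sW A B) (fun σ : Sep M ≃ₐ[M] Sep M =>
      act (sW A B) (rs M σ) (Q P) - Q P) := fun P =>
    ⟨cob_isCoc _ _, fun σ => by
      rw [two_nsmul, sub_add_sub_comm, ← map_add, hfix, sub_self], isLoc_cob _ _⟩
  refine ⟨fun P => Quotient.mk (selSetoid (sW A B)) ⟨_, hsel P⟩, fun P P' h => ?_⟩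
  obtain ⟨T, hT2, hT⟩ := Quotient.exact h
  obtain ⟨R, hR⟩ := fixed_point (K := M) (F := M) (sW A B) (Q P - Q P' - T) (fun σ => by
    have h1 : (act (sW A B) (rs M σ) (Q P) - Q P) - (act (sW A B) (rs M σ) (Q P') - Q P') =
        act (sW A B) (rs M σ) T - T := hT σ
    rw [map_sub, map_sub]
    have h2 : act (sW A B) (rs M σ) (Q P) = Q P + act (sW A B) (rs M σ) (Q P') - Q P' +
        (act (sW A B) (rs M σ) T - T) := by
      rw [← h1]
      abel
    rw [h2]
    abel)
  refine ⟨R, act_inj (sW A B) (incl M M (Sep M)) ?_⟩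
  rw [map_add, map_add, hR, ← hQ P, ← hQ P']
  rw [two_nsmul] at hT2
  have e : Q P' + Q P' + (Q P - Q P' - T + (Q P - Q P' - T)) = Q P + Q P - (T + T) := by abel
  rw [e, hT2, sub_zero]

theorem fg_pt {A B : M} (hd : 4 * A ^ 3 + 27 * B ^ 2 ≠ 0) : AddGroup.FG (Pt (sW A B) M) := by
  have hfg : AddGroup.FG (Pool.Agent.TH942.SPt A B) := Pool.Agent.TH942.sfg hd
  have heq : (Pool.Agent.TH942.sw A B).toAffine = ((sW A B).baseChange M).toAffine := by
    apply WeierstrassCurve.ext <;> simp [Pool.Agent.TH942.sw, sW, WeierstrassCurve.baseChange]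
  exact Pool.Agent.TH942.fg_of_eq heq hfg

/-- The rank and the order of the 2-Selmer group. -/
theorem rank_le {A B : M} (hd : 4 * A ^ 3 + 27 * B ^ 2 ≠ 0) (hfin : Finite (Sel2 (sW A B))) :
    2 ^ Module.finrank ℤ (Pt (sW A B) M) ≤ Nat.card (Sel2 (sW A B)) := by
  obtain ⟨κ, hκ⟩ := kummer hd
  haveI := hfin
  have hr : Finite (Set.range κ) := inferInstance
  obtain ⟨T, hT⟩ : ∃ T : Finset (Pt (sW A B) M), T.card ≤ Nat.card (Sel2 (sW A B)) ∧
      ∀ g, ∃ t ∈ T, κ t = κ g := by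
    haveI := Fintype.ofFinite (Set.range κ)
    refine ⟨(Finset.univ : Finset (Set.range κ)).image (fun q => q.2.choose), ?_, ?_⟩
    · refine Finset.card_image_le.trans ?_
      rw [Finset.card_univ, ← Nat.card_eq_fintype_card]
      exact Nat.card_le_card_of_injective _ Subtype.val_injective
    · intro g
      refine ⟨_, Finset.mem_image_of_mem _ (Finset.mem_univ (⟨κ g, g, rfl⟩ : Set.range κ)), ?_⟩
      exact (⟨κ g, g, rfl⟩ : Set.range κ).2.choose_spec
  exact Pool.Agent.W505.RK.rkb _ (fg_pt hd) _ T hT.1 fun g => by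
    obtain ⟨t, ht, h⟩ := hT.2 g
    obtain ⟨R, hR⟩ := hκ g t h.symm
    exact ⟨t, ht, R, hR⟩

end

end Pool.Agent.H459.AV
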