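import Pool.Agent.H459.AV.Red
import Pool.Agent.H459.AV.Rk

/-!
# Averages over all elliptic curves over a number field (helper459)
-/

set_option autoImplicit false
set_option linter.all false

open Polynomial IsDedekindDomain Matrix NumberField
open scoped Classical

namespace Pool.Agent.H459.AV

open Pool.Agent.N783.PF
open Pool.Agent.N874.PP (sW)
open Pool.Agent.TH115.GD (Pt)
open Pool.Agent.H459.UF (cu cu_monic cu_deg)
open Pool.Agent.N61.PF (crv_finite exists_B)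

section

variable {F : Type} [Field F] [NumberField F]

/-- The curve `y ^ 2 = x ^ 3 + a x + b` has no point of order two over `F`. -/
def NoTwo (p : 𝓞 F × 𝓞 F) : Prop := ∀ x : F, x ^ 3 + (p.1 : F) * x + (p.2 : F) ≠ 0

/-- The rank of the curve `y ^ 2 = x ^ 3 + a x + b` over `F`. -/
noncomputable def rk (p : 𝓞 F × 𝓞 F) : ℕ :=
  Module.finrank ℤ (Pt (sW (p.1 : F) (p.2 : F)) F)

/-- The order of the 2-Selmer group of the curve `y ^ 2 = x ^ 3 + a x + b` over `F`. -/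
noncomputable def s2 (p : 𝓞 F × 𝓞 F) : ℕ := Nat.card (Sel2 (sW (p.1 : F) (p.2 : F)))

theorem noTwo_iff (p : 𝓞 F × 𝓞 F) : NoTwo p ↔ Irreducible (cu (p.1 : F) (p.2 : F)) := by
  have hd : (cu (p.1 : F) (p.2 : F)).natDegree = 3 := cu_deg _ _
  have hev : ∀ x : F, (cu (p.1 : F) (p.2 : F)).eval x = x ^ 3 + (p.1 : F) * x + (p.2 : F) := by
    intro x
    unfold cu
    simp
  constructor
  · intro h
    rw [Polynomial.irreducible_iff_roots_eq_zero_of_degree_le_three (by omega) (by omega),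
      Multiset.eq_zero_iff_forall_notMem]
    intro x hx
    apply h x
    rw [← hev]
    exact Polynomial.isRoot_of_mem_roots hx
  · intro h x hx
    have h1 : (cu (p.1 : F) (p.2 : F)).IsRoot x := by
      rw [IsRoot, hev]
      exact hx
    have h2 := natDegree_eq_of_degree_eq_some (degree_eq_one_of_irreducible_of_root h h1)
    rw [hd] at h2
    norm_num at h2

/-- **Averages over all elliptic curves over a number field.** -/
theorem fin (F : Type) [Field F] [NumberField F] :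
    (∀ Y : ℝ, {p : 𝓞 F × 𝓞 F | Crv Y p}.Finite) ∧
    (∀ p : 𝓞 F × 𝓞 F, NoTwo p → Finite (Sel2 (sW (p.1 : F) (p.2 : F))) ∧ 2 ^ rk p ≤ s2 p) ∧
    ∃ C : ℝ, 0 < C ∧ ∃ Y₀ : ℝ, ∀ Y ≥ Y₀, 0 < {p : 𝓞 F × 𝓞 F | Crv Y p}.ncard ∧
    (∀ T : Finset (𝓞 F × 𝓞 F), (∀ p ∈ T, Crv Y p ∧ NoTwo p) →
      ∑ p ∈ T, (s2 p : ℝ) ≤ C * ({p : 𝓞 F × 𝓞 F | Crv Y p}.ncard : ℝ) ∧
      ∑ p ∈ T, (rk p : ℝ) ≤ C * ({p : 𝓞 F × 𝓞 F | Crv Y p}.ncard : ℝ)) ∧
    (({p : 𝓞 F × 𝓞 F | Crv Y p ∧ ¬ NoTwo p}.ncard : ℝ) ≤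
      C * Y ^ (-(Module.finrank ℚ F : ℝ) / 3) * ({p : 𝓞 F × 𝓞 F | Crv Y p}.ncard : ℝ)) ∧
    ∀ R : ℕ, ({p : 𝓞 F × 𝓞 F | Crv Y p ∧ R ≤ rk p}.ncard : ℝ) ≤
      C * (1 / 2 ^ R + Y ^ (-(Module.finrank ℚ F : ℝ) / 3)) *
        ({p : 𝓞 F × 𝓞 F | Crv Y p}.ncard : ℝ) := by
  have hcf : ∀ Y : ℝ, {p : 𝓞 F × 𝓞 F | Crv Y p}.Finite := fun Y =>
    crv_finite (F := F) Pool.Agent.N490.PF.pts Y
  obtain ⟨C₁, hC₁, Y₁, hY₁⟩ := avg F
  obtain ⟨C₂, hC₂, hred⟩ := red_le F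
  obtain ⟨c, hc, B₀, hlow⟩ := crv_lower F
  obtain ⟨κ, hκ⟩ := cls F
  obtain ⟨C₃, N₀, hC₃⟩ := badA F 1 κ le_rfl
  refine ⟨hcf, fun p hp => ?_, ?_⟩
  · have hirr := (noTwo_iff p).1 hp
    obtain ⟨B, hB⟩ : ∃ B : ℕ, Ht 1 B (sc p.1 p.2) := by
      have hb : ∀ x : 𝓞 F, ∃ n : ℕ, ∀ σ : F →+* ℂ, ‖σ (x : F)‖ ≤ n := by
        intro x
        haveI : Fintype (F →+* ℂ) := inferInstance
        obtain ⟨n, hn⟩ := exists_nat_ge (∑ σ : F →+* ℂ, ‖σ (x : F)‖)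
        exact ⟨n, fun σ => (Finset.single_le_sum (f := fun σ : F →+* ℂ => ‖σ (x : F)‖)
          (fun _ _ => norm_nonneg _) (Finset.mem_univ σ)).trans hn⟩
      obtain ⟨n1, h1⟩ := hb (16 * p.1)
      obtain ⟨n2, h2⟩ := hb (64 * p.2)
      refine ⟨n1 + n2 + 1, Pool.Agent.N61.PF.ht_pol (fun σ => (h1 σ).trans ?_)
        (fun σ => (h2 σ).trans ?_)⟩
      · push_cast
        have e1 : (0 : ℝ) ≤ n1 := Nat.cast_nonneg _
        have e2 : (0 : ℝ) ≤ n2 := Nat.cast_nonneg _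
        nlinarith
      · push_cast
        have e1 : (0 : ℝ) ≤ n1 := Nat.cast_nonneg _
        have e2 : (0 : ℝ) ≤ n2 := Nat.cast_nonneg _
        have e3 : (n2 : ℝ) ≤ (n1 : ℝ) + n2 + 1 := by linarith
        have e4 : (1 : ℝ) ≤ (n1 : ℝ) + n2 + 1 := by linarith
        exact e3.trans (le_self_pow₀ e4 (by norm_num))
    obtain ⟨C₄, hC₄⟩ := total F
    have hB1 : 1 ≤ B + 1 := by omega
    have hB' : Ht 1 (B + 1) (sc p.1 p.2) := by
      refine ⟨hB.mon, hB.deg, hB.tr, fun j hj σ => (hB.ht j hj σ).trans ?_⟩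
      refine pow_le_pow_left₀ (Nat.cast_nonneg _) ?_ _
      push_cast
      linarith
    obtain ⟨h1, -⟩ := hC₄ (B + 1) hB1 {p} fun q hq => by
      rw [Finset.mem_singleton] at hq
      subst hq
      exact ⟨hirr, hB'⟩
    have h2 := h1 p (Finset.mem_singleton_self p)
    exact ⟨h2, rank_le (disc_cu hirr) h2⟩
  · obtain ⟨d, hd⟩ : ∃ d, d = Module.finrank ℚ F := ⟨_, rfl⟩
    rw [← hd] at hlow hred ⊢
    obtain ⟨B₁, hB₁⟩ : ∃ B₁ : ℕ, B₁ = max B₀ 1 := ⟨_, rfl⟩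
    have hB₁1 : 1 ≤ B₁ := by rw [hB₁]; exact le_max_right _ _
    obtain ⟨C, hC⟩ : ∃ C : ℝ, C = C₁ + C₂ * 12 ^ d / c := ⟨_, rfl⟩
    have hC0 : 0 < C₂ * 12 ^ d / c := by positivity
    have hCp : 0 < C := by rw [hC]; positivity
    refine ⟨C, hCp, max Y₁ (27 * (B₁ : ℝ) ^ 6), fun Y hY => ?_⟩
    obtain ⟨h1, h2⟩ := hY₁ Y ((le_max_left _ _).trans hY)
    obtain ⟨B, hBB, hBY, hYB⟩ := exists_B B₁ Y hB₁1 ((le_max_right _ _).trans hY)
    have hB1 : 1 ≤ B := hB₁1.trans hBB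
    have hBr : (1 : ℝ) ≤ B := by exact_mod_cast hB1
    have hl := hlow B ((le_max_left B₀ 1).trans (by rw [← hB₁]; exact hBB)) hB1 Y hBY
    have hr := hred B hB1 Y hYB
    obtain ⟨N, hN⟩ : ∃ N : ℝ, N = ({p : 𝓞 F × 𝓞 F | Crv Y p}.ncard : ℝ) := ⟨_, rfl⟩
    rw [← hN] at hl
    have hN0 : 0 ≤ N := by rw [hN]; exact Nat.cast_nonneg _
    have hYpos : 0 < Y := by
      have : (1 : ℝ) ≤ (B : ℝ) ^ 6 := one_le_pow₀ hBr
      linarith
    obtain ⟨E, hE⟩ : ∃ E : ℝ, E = Y ^ (-(d : ℝ) / 3) := ⟨_, rfl⟩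
    have hE0 : 0 < E := by rw [hE]; exact Real.rpow_pos_of_pos hYpos _
    have hS : ∀ T : Finset (𝓞 F × 𝓞 F), (∀ p ∈ T, Crv Y p ∧ NoTwo p) →
        ∑ p ∈ T, (s2 p : ℝ) ≤ C * N := by
      intro T hT
      have h3 := (h2 T fun p hp => ⟨(hT p hp).1, (noTwo_iff p).1 (hT p hp).2⟩).2
      rw [← hN] at h3
      refine h3.trans (mul_le_mul_of_nonneg_right ?_ hN0)
      rw [hC]
      linarith
    have hT : ({p : 𝓞 F × 𝓞 F | Crv Y p ∧ ¬ NoTwo p}.ncard : ℝ) ≤ C * E * N := by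
      have e1 : {p : 𝓞 F × 𝓞 F | Crv Y p ∧ ¬ NoTwo p} =
          {p : 𝓞 F × 𝓞 F | Crv Y p ∧ ¬ Irreducible (cu (p.1 : F) (p.2 : F))} := by
        ext p
        rw [Set.mem_setOf_eq, Set.mem_setOf_eq, noTwo_iff]
      rw [e1]
      have e2 : Y ≤ (12 * (B : ℝ) ^ 2) ^ 3 := by
        have h3 : 27 * ((B : ℝ) + 1) ^ 6 ≤ 27 * (2 * (B : ℝ)) ^ 6 := by
          gcongr
          linarith
        calc Y ≤ 27 * (2 * (B : ℝ)) ^ 6 := hYB.le.trans h3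
          _ = _ := by ring
      have e3 : Y ^ ((d : ℝ) / 3) ≤ (12 * (B : ℝ) ^ 2) ^ d := by
        calc Y ^ ((d : ℝ) / 3) ≤ ((12 * (B : ℝ) ^ 2) ^ 3) ^ ((d : ℝ) / 3) :=
              Real.rpow_le_rpow hYpos.le e2 (by positivity)
          _ = (12 * (B : ℝ) ^ 2) ^ d := by
              rw [← Real.rpow_natCast (12 * (B : ℝ) ^ 2) 3, ← Real.rpow_mul (by positivity),
                ← Real.rpow_natCast (12 * (B : ℝ) ^ 2) d]
              congr 1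
              push_cast
              ring
      have e4 : E * Y ^ ((d : ℝ) / 3) = 1 := by
        rw [hE, ← Real.rpow_add hYpos]
        have : -(d : ℝ) / 3 + (d : ℝ) / 3 = 0 := by ring
        rw [this, Real.rpow_zero]
      have e5 : (1 : ℝ) ≤ E * (12 * (B : ℝ) ^ 2) ^ d := by
        rw [← e4]
        exact mul_le_mul_of_nonneg_left e3 hE0.le
      have hB3 : 0 ≤ C₂ * (B : ℝ) ^ (3 * d) := by positivity
      calc ({p : 𝓞 F × 𝓞 F | Crv Y p ∧ ¬ Irreducible (cu (p.1 : F) (p.2 : F))}.ncard : ℝ)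
          ≤ C₂ * (B : ℝ) ^ (3 * d) * 1 := by rw [mul_one]; exact hr
        _ ≤ C₂ * (B : ℝ) ^ (3 * d) * (E * (12 * (B : ℝ) ^ 2) ^ d) :=
            mul_le_mul_of_nonneg_left e5 hB3
        _ = C₂ * 12 ^ d / c * E * (c * (B : ℝ) ^ (5 * d)) := by
            rw [mul_pow, ← pow_mul]
            have : (5 * d) = 3 * d + 2 * d := by ring
            rw [this, pow_add]
            field_simp
        _ ≤ C₂ * 12 ^ d / c * E * N := mul_le_mul_of_nonneg_left hl (by positivity)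
        _ ≤ C * E * N := by
            refine mul_le_mul_of_nonneg_right (mul_le_mul_of_nonneg_right ?_ hE0.le) hN0
            rw [hC]
            linarith
    rw [← hN, ← hE]
    refine ⟨h1, fun T hT' => ⟨hS T hT', le_trans (Finset.sum_le_sum fun p hp => ?_) (hS T hT')⟩,
      hT, fun R => ?_⟩
    · have hirr := (noTwo_iff p).1 (hT' p hp).2
      have h8 := rank_le (disc_cu hirr) ((h2 T fun p hp =>
        ⟨(hT' p hp).1, (noTwo_iff p).1 (hT' p hp).2⟩).1 p hp)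
      have h9 : rk p ≤ s2 p := (Nat.lt_two_pow_self).le.trans h8
      exact_mod_cast h9
    -- the tail
    have hfA : {p : 𝓞 F × 𝓞 F | Crv Y p ∧ NoTwo p ∧ R ≤ rk p}.Finite :=
      (hcf Y).subset fun p hp => hp.1
    have h3 : ({p : 𝓞 F × 𝓞 F | Crv Y p ∧ R ≤ rk p}.ncard : ℝ) ≤
        ({p : 𝓞 F × 𝓞 F | Crv Y p ∧ NoTwo p ∧ R ≤ rk p}.ncard : ℝ) +
        ({p : 𝓞 F × 𝓞 F | Crv Y p ∧ ¬ NoTwo p}.ncard : ℝ) := by
      have h4 : {p : 𝓞 F × 𝓞 F | Crv Y p ∧ R ≤ rk p} ⊆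
          {p : 𝓞 F × 𝓞 F | Crv Y p ∧ NoTwo p ∧ R ≤ rk p} ∪
          {p : 𝓞 F × 𝓞 F | Crv Y p ∧ ¬ NoTwo p} := by
        intro p hp
        by_cases h : NoTwo p
        · exact Or.inl ⟨hp.1, h, hp.2⟩
        · exact Or.inr ⟨hp.1, h⟩
      have h5 := Set.ncard_le_ncard h4 (hfA.union ((hcf Y).subset fun p hp => hp.1))
      exact_mod_cast h5.trans (Set.ncard_union_le _ _)
    have h4 : ({p : 𝓞 F × 𝓞 F | Crv Y p ∧ NoTwo p ∧ R ≤ rk p}.ncard : ℝ) * 2 ^ R ≤ C * N := by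
      have h5 := hS hfA.toFinset fun p hp => by
        have := hfA.mem_toFinset.1 hp
        exact ⟨this.1, this.2.1⟩
      refine le_trans ?_ h5
      have h6 : ∑ p ∈ hfA.toFinset, (2 : ℝ) ^ R ≤ ∑ p ∈ hfA.toFinset, (s2 p : ℝ) := by
        refine Finset.sum_le_sum fun p hp => ?_
        have h7 := hfA.mem_toFinset.1 hp
        have hirr := (noTwo_iff p).1 h7.2.1
        have h8 := rank_le (disc_cu hirr) ((h2 hfA.toFinset fun p hp => by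
          have := hfA.mem_toFinset.1 hp
          exact ⟨this.1, (noTwo_iff p).1 this.2.1⟩).1 p hp)
        calc (2 : ℝ) ^ R ≤ 2 ^ rk p := pow_le_pow_right₀ (by norm_num) h7.2.2
          _ ≤ (s2 p : ℝ) := by exact_mod_cast h8
      rw [Finset.sum_const, nsmul_eq_mul, ← Set.ncard_eq_toFinset_card _ hfA] at h6
      exact h6
    have h5 : ({p : 𝓞 F × 𝓞 F | Crv Y p ∧ NoTwo p ∧ R ≤ rk p}.ncard : ℝ) ≤
        C * (1 / 2 ^ R) * N := by
      have h6 : (0 : ℝ) < 2 ^ R := by positivity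
      rw [← le_div_iff₀ h6] at h4
      refine h4.trans (le_of_eq ?_)
      field_simp
    calc ({p : 𝓞 F × 𝓞 F | Crv Y p ∧ R ≤ rk p}.ncard : ℝ) ≤ _ := h3
      _ ≤ C * (1 / 2 ^ R) * N + C * E * N := add_le_add h5 hT
      _ = _ := by ring

end

end Pool.Agent.H459.AV
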