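import Pool.Agent.H459.AV.Lb

/-!
# The class of the pair determines the class of `α` (helper459)
-/

set_option autoImplicit false
set_option linter.all false

open Polynomial IsDedekindDomain Matrix NumberField
open scoped Classical

namespace Pool.Agent.H459.AV

open Pool.Agent.N783.PF
open Pool.Agent.N352.PJ (Mt Typ dd)
open Pool.Agent.N783.PQ (chp)
open Pool.Agent.N438.PF

section

variable {F L : Type} [Field F] [NumberField F] [Field L] [NumberField L] [Algebra F L]
  {g : ℕ} {f : (𝓞 F)[X]} {θ : L}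

/-- The form. -/
noncomputable def bf (hG : IsGen g f θ) (β : L) : L →ₗ[F] L →ₗ[F] F :=
  ((LinearMap.mul F L).compr₂ (hG.top ∘ₗ LinearMap.mulLeft F β))

theorem bf_apply (hG : IsGen g f θ) (β x y : L) : bf hG β x y = hG.top (β * (x * y)) := rfl

theorem nondeg (hG : IsGen g f θ) {z : L} (h : ∀ y, hG.top (z * y) = 0) : z = 0 := by
  rw [const_of_top hG z (fun m _ => by rw [mul_comm]; exact h _), mul_comm, h, map_zero]

/-- The class of `α`. -/
theorem sq_of_eqv (hG : IsGen g f θ) {α α' : L} (hα : α ≠ 0) (hα' : α' ≠ 0)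
    {e e' : Fin (2 * g + 1) → L} (he : LinearIndependent F e) (he' : LinearIndependent F e')
    {A B A' B' : Mt g (𝓞 F)} (h : Gr hG α e A B) (h' : Gr hG α' e' A' B')
    (hq : cp (mF A) (mF B) = cp (mF A') (mF B')) : IsSquare (α * α') := by
  haveI : FiniteDimensional F L := Module.finite_of_finrank_pos (by rw [hG.rank]; omega)
  rw [cp_eq] at hq
  obtain ⟨V, hV, h1, h2⟩ := hq
  simp only at h1 h2
  obtain ⟨b', hb'⟩ : ∃ b' : Module.Basis (Fin (2 * g + 1)) F L, ∀ i, b' i = e' i :=
    ⟨basisOfLinearIndependentOfCardEqFinrank he' (by rw [hG.rank, Fintype.card_fin]), fun i => by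
      rw [coe_basisOfLinearIndependentOfCardEqFinrank]⟩
  obtain ⟨φ, hφ⟩ : ∃ φ : L →ₗ[F] L, ∀ j, φ (e' j) = ∑ i, V i j • e i :=
    ⟨b'.constr F (fun j => ∑ i, V i j • e i), fun j => by
      rw [← hb', Module.Basis.constr_basis]⟩
  have key : ∀ (β : L) (Q Q' : Mt g (𝓞 F)), (∀ i j, ((Q i j : 𝓞 F) : F) = hG.top (β / α * (e i * e j))) →
      (∀ i j, ((Q' i j : 𝓞 F) : F) = hG.top (β / α' * (e' i * e' j))) →
      mF Q' = Vᵀ * mF Q * V → ∀ x y, hG.top (β / α' * (x * y)) = hG.top (β / α * (φ x * φ y)) := by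
    intro β Q Q' hQ hQ' hVQ
    have e1 : bf hG (β / α') = (bf hG (β / α)).compl₁₂ φ φ := by
      refine b'.ext fun i => b'.ext fun j => ?_
      rw [hb', hb', bf_apply, LinearMap.compl₁₂_apply, bf_apply, ← hQ' i j, hφ, hφ]
      have e2 : ((Q' i j : 𝓞 F) : F) = (mF Q') i j := rfl
      rw [e2, hVQ]
      have e3 : β / α * ((∑ k, V k i • e k) * ∑ l, V l j • e l) =
          ∑ k, ∑ l, (V k i * V l j) • (β / α * (e k * e l)) := by
        rw [Finset.sum_mul, Finset.mul_sum]
        refine Finset.sum_congr rfl fun k _ => ?_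
        rw [Finset.mul_sum, Finset.mul_sum]
        refine Finset.sum_congr rfl fun l _ => ?_
        rw [smul_mul_smul_comm, mul_smul_comm]
      rw [e3, map_sum]
      have e4 : (Vᵀ * mF Q * V) i j = ∑ l, ∑ k, V k i * (mF Q) k l * V l j := by
        rw [Matrix.mul_apply]
        refine Finset.sum_congr rfl fun l _ => ?_
        rw [Matrix.mul_apply, Finset.sum_mul]
        refine Finset.sum_congr rfl fun k _ => ?_
        rw [Matrix.transpose_apply]
      rw [e4, Finset.sum_comm]
      refine Finset.sum_congr rfl fun k _ => ?_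
      rw [map_sum]
      refine Finset.sum_congr rfl fun l _ => ?_
      rw [map_smul, ← hQ k l, smul_eq_mul]
      change V k i * ((Q k l : 𝓞 F) : F) * V l j = _
      ring
    intro x y
    have := congrFun (congrArg DFunLike.coe (congrFun (congrArg DFunLike.coe e1) x)) y
    rw [bf_apply, LinearMap.compl₁₂_apply, bf_apply] at this
    exact this
  have k1 := key 1 A A' (fun i j => by rw [h.gA]; congr 1; ring)
    (fun i j => by rw [h'.gA]; congr 1; ring) h1
  have k2 := key θ B B' (fun i j => by rw [h.gB]; congr 1; ring)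
    (fun i j => by rw [h'.gB]; congr 1; ring) h2
  have hinj : Function.Injective φ := by
    rw [injective_iff_map_eq_zero]
    intro x hx
    have h3 : x / α' = 0 := nondeg hG fun y => by
      have := k1 x y
      rw [hx, zero_mul, mul_zero, map_zero] at this
      rw [← this]
      congr 1
      ring
    rcases div_eq_zero_iff.1 h3 with h3 | h3
    · exact h3
    · exact absurd h3 hα'
  have hsurj : Function.Surjective φ := LinearMap.surjective_of_injective hinj
  have hcomm : ∀ x, φ (θ * x) = θ * φ x := by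
    intro x
    have h3 : (φ (θ * x) - θ * φ x) / α = 0 := nondeg hG fun y => by
      obtain ⟨y, rfl⟩ := hsurj y
      have h4 := k1 (θ * x) y
      have h5 := k2 x y
      have h6 : hG.top (1 / α' * (θ * x * y)) = hG.top (θ / α' * (x * y)) := by
        congr 1
        ring
      rw [h6, h5] at h4
      have h7 : (φ (θ * x) - θ * φ x) / α * φ y =
          1 / α * (φ (θ * x) * φ y) - θ / α * (φ x * φ y) := by ring
      rw [h7, map_sub, ← h4, sub_self]
    rcases div_eq_zero_iff.1 h3 with h3 | h3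
    · exact sub_eq_zero.1 h3
    · exact absurd h3 hα
  have hpow : ∀ m : ℕ, φ (θ ^ m) = θ ^ m * φ 1 := by
    intro m
    induction m with
    | zero => rw [pow_zero, one_mul]
    | succ m ih => rw [pow_succ', hcomm, ih, mul_assoc]
  have hmul : ∀ x, φ x = x * φ 1 := by
    intro x
    obtain ⟨c, rfl⟩ := hG.gen x
    rw [map_sum, Finset.sum_mul]
    refine Finset.sum_congr rfl fun i _ => ?_
    rw [← Algebra.smul_def, map_smul, hpow, smul_mul_assoc]
  have h3 : 1 / α' - φ 1 ^ 2 / α = 0 := nondeg hG fun y => by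
    have h4 := k1 y 1
    rw [hmul y] at h4
    have h5 : (1 / α' - φ 1 ^ 2 / α) * y = 1 / α' * (y * 1) - 1 / α * (y * φ 1 * φ 1) := by ring
    rw [h5, map_sub, h4, sub_self]
  refine ⟨α' * φ 1, ?_⟩
  have h4 : α = α' * φ 1 ^ 2 := by
    have h5 := sub_eq_zero.1 h3
    rw [div_eq_div_iff hα' hα, one_mul] at h5
    rw [h5]
    ring
  have h5 : α * α' = α' * φ 1 ^ 2 * α' := congrArg (fun z => z * α') h4
  rw [h5]
  ring

end

end Pool.Agent.H459.AV
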