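import Pool.Agent.H459.AV.Bad

/-!
# From the lattice to the pair (helper459)

After `N438/PF/LB.lean` (helper438) of the library.
-/

set_option autoImplicit false
set_option linter.all false

open Polynomial IsDedekindDomain Matrix NumberField
open scoped Classical

namespace Pool.Agent.H459.AV

open Pool.Agent.N783.PF
open Pool.Agent.N352.PJ (Mt Typ dd)
open Pool.Agent.N783.PQ (chp form Dist Gap Mid Deep eA eB eU uu)
open Pool.Agent.N438.PF

/-- From the lattice to the pair. -/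
theorem lbA (g : ℕ) (F : Type) [Field F] [NumberField F] (hg : 1 ≤ g) : ∃ κ : ℕ,
    ∀ (L : Type) [Field L] [NumberField L] [Algebra F L] (f : (𝓞 F)[X]) (θ : L) (B N : ℕ)
    (hG : IsGen g f θ), Ht g B f → 2 ^ κ * B ≤ 4 ^ N → ∀ (α : L) (Λ : Submodule (𝓞 F) L), α ≠ 0 →
    IsSquare (Algebra.norm F α) → Lat hG α Λ → ¬ IsSquare α →
    ∃ w, Typ g w ∧ Gap g N w ∧ (Mid g N w ∨ Deep g N κ w) ∧
      ∃ (A A' : Mt g (𝓞 F)) (e : Fin (2 * g + 1) → L), Xs g N κ w A A' ∧
        LinearIndependent F e ∧ Gr hG α e A A' ∧ chp (mF A) (mF A') = fF f := by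
  have h1 := typ
  have h2 := Pool.Agent.N707.PF.MAJ.maj
  have h3 := Pool.Agent.N614.PF.chi
  have h4 := Pool.Agent.N482.PF.sq
  obtain ⟨C, hC⟩ := h1 g F
  obtain ⟨K0, hK0⟩ : ∃ K0 : ℕ, K0 =
    ((2 * g + 1).factorial * 2 ^ (2 * C * (2 * g + 1))) ^ Module.finrank ℚ F := ⟨_, rfl⟩
  refine ⟨2 * C + 2 * g + 2 + K0, ?_⟩
  obtain ⟨κ, hκ⟩ : ∃ κ, κ = 2 * C + 2 * g + 2 + K0 := ⟨_, rfl⟩
  rw [← hκ]
  intro L _ _ _ f θ B N hG hHt hBN α Λ hα hnorm hLat hns
  have hB1 : 1 ≤ B := one_le_B hg hG hHt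
  have hκN : κ ≤ 2 * N := by
    have t1 : 2 ^ κ ≤ 4 ^ N := le_trans (Nat.le_mul_of_pos_right _ hB1) hBN
    rw [show (4 : ℕ) = 2 ^ 2 by norm_num, ← pow_mul] at t1
    exact (Nat.pow_le_pow_iff_right (by norm_num)).1 t1
  have hBN1 : (B : ℝ) ≤ 4 ^ N := by
    have t1 : B ≤ 4 ^ N := le_trans (Nat.le_mul_of_pos_left _ (by positivity)) hBN
    exact_mod_cast t1
  have hB0 : (1 : ℝ) ≤ B := by exact_mod_cast hB1
  obtain ⟨e, w, heΛ, hli, hTyp, hew⟩ := hC hg B L f θ hG α Λ hHt hα hLat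
  obtain ⟨A, A', hGr, sA, sA', hdet0, hchp, htr, hdet, hmod⟩ :=
    h3 g F L f θ hG α Λ e hHt.tr hα hLat heΛ hli
  obtain ⟨hmaj, hmaj2⟩ := h2 g B F L f θ hg hG hHt
  obtain ⟨x, hx0, hxd⟩ := hdet hnorm
  -- bounds
  have bA' : ∀ i j, Bd (A i j : F) ((2 : ℝ) ^ (2 * (C : ℤ) + w i + w j)) := by
    intro i j σ
    have t1 := hmaj α hα σ 0 (e i) (e j)
    rw [pow_zero, one_mul, mul_zero, pow_zero, one_mul, ← hGr.gA] at t1
    have t2 : HH f θ α (e i) * HH f θ α (e j) ≤ ((2 : ℝ) ^ (2 * (C : ℤ) + w i + w j)) ^ 2 := by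
      refine (mul_le_mul (hew i) (hew j) (HH_nonneg _ _) (by positivity)).trans (le_of_eq ?_)
      rw [← zpow_add₀ (by norm_num), ← four_zpow]
      congr 1
      ring
    exact (sq_le_sq₀ (norm_nonneg _) (by positivity)).1 (t1.trans t2)
  have bA : ∀ i j, Bd (A i j : F) ((2 : ℝ) ^ ((κ : ℤ) + w i + w j)) := by
    intro i j σ
    refine (bA' i j σ).trans (zpow_le_zpow_right₀ (by norm_num) ?_)
    rw [hκ]
    push_cast
    have : (0 : ℤ) ≤ g := by positivity
    have : (0 : ℤ) ≤ K0 := by positivity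
    linarith
  have bB : ∀ i j, Bd (A' i j : F) ((2 : ℝ) ^ (2 * (N : ℤ) + w i + w j)) := by
    intro i j σ
    have t1 := hmaj α hα σ 1 (e i) (e j)
    rw [pow_one, mul_one, ← hGr.gB] at t1
    have t2 : (2 * B : ℝ) ^ 2 * (HH f θ α (e i) * HH f θ α (e j)) ≤
        ((2 * (B : ℝ)) * (2 : ℝ) ^ (2 * (C : ℤ) + w i + w j)) ^ 2 := by
      rw [mul_pow (2 * (B : ℝ)) _]
      refine mul_le_mul_of_nonneg_left ?_ (sq_nonneg _)
      refine (mul_le_mul (hew i) (hew j) (HH_nonneg _ _) (by positivity)).trans (le_of_eq ?_)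
      rw [← zpow_add₀ (by norm_num), ← four_zpow]
      congr 1
      ring
    have t3 := (sq_le_sq₀ (norm_nonneg _) (by positivity)).1 (t1.trans t2)
    refine t3.trans ?_
    have t4 : (2 * (B : ℝ)) * (2 : ℝ) ^ (2 * (C : ℤ)) ≤ (2 : ℝ) ^ (2 * (N : ℤ)) := by
      have t5 : 2 * B * 2 ^ (2 * C) ≤ 2 ^ (2 * N) := by
        calc 2 * B * 2 ^ (2 * C) = 2 ^ (2 * C + 1) * B := by ring
          _ ≤ 2 ^ κ * B := Nat.mul_le_mul_right _ (Nat.pow_le_pow_right (by norm_num) (by omega))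
          _ ≤ 4 ^ N := hBN
          _ = 2 ^ (2 * N) := by rw [show (4 : ℕ) = 2 ^ 2 by norm_num, ← pow_mul]
      exact_mod_cast t5
    calc 2 * (B : ℝ) * (2 : ℝ) ^ (2 * (C : ℤ) + w i + w j)
        = (2 * (B : ℝ)) * (2 : ℝ) ^ (2 * (C : ℤ)) * (2 : ℝ) ^ (w i + w j) := by
          rw [add_assoc, zpow_add₀ (by norm_num)]
          ring
      _ ≤ (2 : ℝ) ^ (2 * (N : ℤ)) * (2 : ℝ) ^ (w i + w j) :=
          mul_le_mul_of_nonneg_right t4 (by positivity)
      _ = (2 : ℝ) ^ (2 * (N : ℤ) + w i + w j) := by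
          rw [add_assoc, ← zpow_add₀ (by norm_num)]
  -- the size of x
  have hxn : Ideal.absNorm (Ideal.span {x}) ≤ K0 := by
    have t1 : Bd ((x ^ 2 : 𝓞 F) : F) (((2 * g + 1).factorial * 2 ^ (2 * C * (2 * g + 1)) : ℕ) : ℝ) := by
      intro σ
      have t2 := det_le' hTyp bA' σ
      rw [hxd] at t2
      have t3 : ‖σ (((-1) ^ g * x ^ 2 : 𝓞 F) : F)‖ = ‖σ ((x ^ 2 : 𝓞 F) : F)‖ := by
        rcases neg_one_pow_eq_or (𝓞 F) g with t4 | t4
        · rw [t4, one_mul]
        · rw [t4, neg_one_mul]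
          simp
      rwa [t3] at t2
    have t2 := norm_le _ t1
    have t3 : Ideal.absNorm (Ideal.span {x ^ 2}) ≤ K0 := by
      rw [hK0]
      exact_mod_cast t2
    refine le_trans ?_ t3
    have t4 : Ideal.span {x ^ 2} = Ideal.span {x} * Ideal.span {x} := by
      rw [Ideal.span_singleton_mul_span_singleton, sq]
    rw [t4, map_mul]
    exact Nat.le_mul_of_pos_left _ (norm_pos hx0)
  -- the type
  refine ⟨w, hTyp, ?_, ?_, A, A', e, ⟨⟨sA, sA', ⟨x, hx0, hxd, ?_⟩, htr, bA, bB⟩,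
    fun q hq => absurd hq (Finset.notMem_empty q), fun q hq => absurd hq (Finset.notMem_empty q)⟩,
    hli, hGr, hchp⟩
  · -- gaps
    intro i j hij
    by_contra hcon'
    push Not at hcon'
    have hi : (i : ℕ) + 1 < 2 * g + 1 := by
      rw [← hij]
      exact j.2
    obtain ⟨a, ha, b, hb, hab⟩ := Pool.Agent.N530.PQ.gap g F (mF A) (mF A')
      (by
        have := congrArg (fun M : Mt g (𝓞 F) => M.map (algebraMap (𝓞 F) F)) sA
        simpa [Matrix.IsSymm, Matrix.transpose_map] using this)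
      (by
        have := congrArg (fun M : Mt g (𝓞 F) => M.map (algebraMap (𝓞 F) F)) sA'
        simpa [Matrix.IsSymm, Matrix.transpose_map] using this)
      (by
        have t : (mF A).det = algebraMap (𝓞 F) F A.det := (RingHom.map_det _ _).symm
        rw [t]
        intro t0
        apply hdet0
        exact (map_eq_zero_iff _ (FaithfulSMul.algebraMap_injective (𝓞 F) F)).1 t0)
      (by rw [hchp]; exact irrF hG)
      i ⟨2 * g - 1 - i, by omega⟩ (by simp only; omega)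
    have t2 := hTyp.mono ha
    have t3 := hTyp.mono hb
    have t4 : (⟨2 * g - 1 - i, by omega⟩ : Fin (2 * g + 1)) = Fin.rev j := by
      apply Fin.ext
      rw [Fin.val_rev]
      simp only
      omega
    rw [t4, hTyp.anti] at t3
    have z1 : A a b = 0 := zero_of_z (bA a b) (by
      have : (κ : ℤ) ≤ 2 * N := by exact_mod_cast hκN
      linarith)
    have z2 : A' a b = 0 := zero_of_z (bB a b) (by linarith)
    rcases hab with hab | hab
    · apply hab
      change algebraMap (𝓞 F) F (A a b) = 0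
      rw [z1, map_zero]
    · apply hab
      change algebraMap (𝓞 F) F (A' a b) = 0
      rw [z2, map_zero]
  · -- the middle gap or the depth
    · left
      intro i hi
      by_contra hcon'
      push Not at hcon'
      apply hns
      have hz : ∀ a b : Fin (2 * g + 1), (a : ℕ) < g → (b : ℕ) < g → A a b = 0 ∧ A' a b = 0 := by
        intro a b ha hb
        have t2 := hTyp.mono (show a ≤ i from Fin.le_def.2 (by omega))
        have t3 := hTyp.mono (show b ≤ i from Fin.le_def.2 (by omega))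
        constructor
        · exact zero_of_z (bA a b) (by
            have : (κ : ℤ) ≤ 2 * N := by exact_mod_cast hκN
            linarith)
        · exact zero_of_z (bB a b) (by linarith)
      refine h4 g F L f θ hg hG α e hα hli ?_ ?_ hnorm
      · intro a b ha hb
        rw [← hGr.gA, (hz a b ha hb).1]
        exact map_zero (algebraMap (𝓞 F) F)
      · intro a b ha hb
        rw [← hGr.gB, (hz a b ha hb).2]
        exact map_zero (algebraMap (𝓞 F) F)
  · -- the norm of x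
    refine hxn.trans ?_
    calc K0 ≤ κ := by omega
      _ ≤ 2 ^ κ := Nat.lt_two_pow_self.le

end Pool.Agent.H459.AV
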