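import Pool.Graph.R_pool_sql_team_seeded_63374d34.N783.PF.Final

/-!
# Classes of pairs of symmetric matrices: orbits of the unipotent group (helper459)

After `N999/PF/Orb.lean` (helper999) and `N134/PF/Bad.lean` (helper134) of the library: there
polynomials are counted, here classes of pairs over `F`.
-/

set_option autoImplicit false
set_option linter.all false

open Polynomial Matrix NumberField
open scoped Classical

namespace Pool.Agent.H459.AV

open Pool.Agent.N783.PF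
open Pool.Agent.N783.PQ (chp form Dist Gap Mid Deep eA eB eU uu)
open Pool.Agent.N352.PJ (Mt Typ dd)
open Pool.Agent.N530.PQ (op_act chp_act symm_act form_act Ix mem_ix)
open Pool.Agent.N999.PF (Uni Par mat mat_uni mat_inj card_par X_act map_unit map_act)

/-! ### Classes of pairs -/

section cls

variable {F : Type} [Field F] {g : ℕ}

/-- Equivalence of pairs. -/
def Eqv (p q : Mt g F × Mt g F) : Prop :=
  ∃ V : Mt g F, IsUnit V.det ∧ q.1 = Vᵀ * p.1 * V ∧ q.2 = Vᵀ * p.2 * V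

theorem Eqv.refl (p : Mt g F × Mt g F) : Eqv p p :=
  ⟨1, by rw [det_one]; exact isUnit_one, by simp, by simp⟩

theorem Eqv.symm {p q : Mt g F × Mt g F} (h : Eqv p q) : Eqv q p := by
  obtain ⟨V, hV, h1, h2⟩ := h
  have e : ∀ A : Mt g F, (V⁻¹)ᵀ * (Vᵀ * A * V) * V⁻¹ = A := by
    intro A
    have e1 : (V⁻¹)ᵀ * Vᵀ = 1 := by
      rw [← Matrix.transpose_mul, Matrix.mul_nonsing_inv _ hV, Matrix.transpose_one]
    calc (V⁻¹)ᵀ * (Vᵀ * A * V) * V⁻¹ = ((V⁻¹)ᵀ * Vᵀ) * A * (V * V⁻¹) := by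
          simp only [Matrix.mul_assoc]
      _ = A := by rw [e1, Matrix.mul_nonsing_inv _ hV, Matrix.one_mul, Matrix.mul_one]
  refine ⟨V⁻¹, ?_, ?_, ?_⟩
  · rw [Matrix.det_nonsing_inv]
    exact hV.ringInverse
  · rw [h1, e]
  · rw [h2, e]

theorem Eqv.trans {p q r : Mt g F × Mt g F} (h : Eqv p q) (h' : Eqv q r) : Eqv p r := by
  obtain ⟨V, hV, h1, h2⟩ := h
  obtain ⟨V', hV', h1', h2'⟩ := h'
  refine ⟨V * V', ?_, ?_, ?_⟩
  · rw [Matrix.det_mul]
    exact hV.mul hV'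
  · rw [h1', h1, Matrix.transpose_mul]
    simp only [Matrix.mul_assoc]
  · rw [h2', h2, Matrix.transpose_mul]
    simp only [Matrix.mul_assoc]

/-- The classes. -/
def stp (F : Type) [Field F] (g : ℕ) : Setoid (Mt g F × Mt g F) :=
  ⟨Eqv, Eqv.refl, Eqv.symm, Eqv.trans⟩

/-- The set of the classes. -/
abbrev Cp (F : Type) [Field F] (g : ℕ) : Type := Quotient (stp F g)

/-- The class of a pair. -/
def cp (A B : Mt g F) : Cp F g := Quotient.mk (stp F g) (A, B)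

theorem cp_eq {A B A' B' : Mt g F} : cp A B = cp A' B' ↔ Eqv (A, B) (A', B') :=
  Quotient.eq (r := stp F g)

theorem Eqv.chp_eq {p q : Mt g F × Mt g F} (h : Eqv p q) : chp q.1 q.2 = chp p.1 p.2 := by
  obtain ⟨V, hV, h1, h2⟩ := h
  rw [h1, h2, chp_act hV]

end cls

/-! ### Orbits -/

section orbits

variable {F : Type} [Field F] [NumberField F] {g : ℕ}

/-- The pairs, without conditions at primes. -/
abbrev Xs (g N c : ℕ) (w : Fin (2 * g + 1) → ℤ) (A B : Mt g (𝓞 F)) : Prop :=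
  Xset g N c w (∅ : Finset ℕ) (fun _ => (⊥ : Ideal (𝓞 F))) (fun _ => (0 : (𝓞 F)[X])) A B

/-- The classes with a representative in the box of type `w`. -/
def Pc (F : Type) [Field F] [NumberField F] (g N c : ℕ) (w : Fin (2 * g + 1) → ℤ) :
    Set (Cp F g) :=
  {q | ∃ A B : Mt g (𝓞 F), Xs g N c w A B ∧ Irreducible (chp (mF A) (mF B)) ∧
    q = cp (mF A) (mF B)}

theorem orbA (F : Type) [Field F] [NumberField F] (g : ℕ) : ∃ κ C : ℕ, ∀ (c N : ℕ)
    (w : Fin (2 * g + 1) → ℤ), Typ g w →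
    {p : Mt g (𝓞 F) × Mt g (𝓞 F) | Xs g (N + κ) (c + κ) w p.1 p.2}.Finite →
    (Pc F g N c w).ncard * 2 ^ (Module.finrank ℚ F * eU g w) ≤
      C * {p : Mt g (𝓞 F) × Mt g (𝓞 F) | Xs g (N + κ) (c + κ) w p.1 p.2}.ncard := by
  obtain ⟨-, C0, hC0, hC, -⟩ := Pool.Agent.N490.PF.pts F
  refine ⟨2 * (2 * g + 1), ⌈C0⌉₊ ^ Fintype.card (Ix g), ?_⟩
  intro c N w hw hfin
  have hcard := card_par (F := F) (C := ⌈C0⌉₊) (fun R hR => (hC R hR).2.trans
    (mul_le_mul_of_nonneg_right (Nat.le_ceil C0) (Nat.cast_nonneg _))) hw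
  have hκ : (2 * g + 1) ^ 2 ≤ 2 ^ (2 * (2 * g + 1)) := by
    rw [mul_comm 2 (2 * g + 1), pow_mul]
    exact Nat.pow_le_pow_left (Nat.lt_two_pow_self).le 2
  obtain ⟨κ, hκe⟩ : ∃ κ, κ = 2 * (2 * g + 1) := ⟨_, rfl⟩
  rw [← hκe] at hκ hfin ⊢
  have hfin' : Finite {p : Mt g (𝓞 F) × Mt g (𝓞 F) | Xs g (N + κ) (c + κ) w p.1 p.2} :=
    hfin.to_subtype
  refine (Nat.mul_le_mul_left _ hcard).trans ?_
  rw [Nat.mul_left_comm]
  refine Nat.mul_le_mul_left _ ?_
  rw [← Nat.card_coe_set_eq, ← Nat.card_prod, ← Nat.card_coe_set_eq]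
  have hch : ∀ q : Pc F g N c w, ∃ A B : Mt g (𝓞 F), Xs g N c w A B ∧
      Irreducible (chp (mF A) (mF B)) ∧ q.1 = cp (mF A) (mF B) := fun q => q.2
  choose A B hB1 hB2 hB3 using hch
  refine Nat.card_le_card_of_injective
    (fun z => (⟨((mat z.2)ᵀ * A z.1 * mat z.2, (mat z.2)ᵀ * B z.1 * mat z.2),
      X_act hκ (hB1 z.1) (mat_uni z.2)⟩ :
      {p : Mt g (𝓞 F) × Mt g (𝓞 F) | Xs g (N + κ) (c + κ) w p.1 p.2})) ?_
  rintro ⟨f, u⟩ ⟨f', u'⟩ he
  have h0 : ((mat u)ᵀ * A f * mat u, (mat u)ᵀ * B f * mat u) =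
      ((mat u')ᵀ * A f' * mat u', (mat u')ᵀ * B f' * mat u') := congrArg Subtype.val he
  have h4 : (mat u)ᵀ * A f * mat u = (mat u')ᵀ * A f' * mat u' := congrArg Prod.fst h0
  have h5 : (mat u)ᵀ * B f * mat u = (mat u')ᵀ * B f' * mat u' := congrArg Prod.snd h0
  have hcl : ∀ (f : Pc F g N c w) (u : Par F g w),
      cp (mF ((mat u)ᵀ * A f * mat u)) (mF ((mat u)ᵀ * B f * mat u)) = f.1 := by
    intro f u
    rw [hB3 f, eq_comm, cp_eq]
    refine ⟨(mat u).map (algebraMap (𝓞 F) F), map_unit (algebraMap (𝓞 F) F) (mat_uni u).det,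
      ?_, ?_⟩
    · exact map_act _
    · exact map_act _
  have h6 : f = f' := by
    apply Subtype.ext
    rw [← hcl f u, ← hcl f' u', h4, h5]
  subst h6
  have h7 := Pool.Agent.N999.PF.free (A := A f) (B := B f) (hB2 f) (mat_uni u)
    (mat_uni u') h4 h5
  rw [mat_inj h7]

end orbits

end Pool.Agent.H459.AV
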