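import Pool.Agent.H459.AV.Avg

/-!
# The number of the curves with a rational point of order two (helper459)
-/

set_option autoImplicit false
set_option linter.all false

open Polynomial IsDedekindDomain Matrix NumberField
open scoped Classical

namespace Pool.Agent.H459.AV

open Pool.Agent.N783.PF
open Pool.Agent.N874.PP (sW)
open Pool.Agent.H459.UF (cu cu_monic cu_deg)
open Pool.Agent.N61.PF (crv_finite exists_B)

section

variable {F : Type} [Field F] [NumberField F]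

/-- A reducible cubic has an integral root. -/
theorem exists_root {a b : 𝓞 F} (h : ¬ Irreducible (cu (a : F) (b : F))) :
    ∃ r : 𝓞 F, r ^ 3 + a * r + b = 0 := by
  have hm : (cu (a : F) (b : F)).Monic := cu_monic _ _
  have hd : (cu (a : F) (b : F)).natDegree = 3 := cu_deg _ _
  have h1 : ∃ x : F, (cu (a : F) (b : F)).IsRoot x := by
    by_contra hc
    push Not at hc
    apply h
    rw [Polynomial.irreducible_iff_roots_eq_zero_of_degree_le_three (by omega) (by omega)]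
    rw [Multiset.eq_zero_iff_forall_notMem]
    intro x hx
    exact hc x (Polynomial.isRoot_of_mem_roots hx)
  obtain ⟨x, hx⟩ := h1
  have hx' : x ^ 3 + (a : F) * x + (b : F) = 0 := by
    have h2 : (cu (a : F) (b : F)).eval x = 0 := hx
    unfold cu at h2
    simpa using h2
  have hint : IsIntegral (𝓞 F) x := by
    refine ⟨X ^ 3 + C a * X + C b, by monicity!, ?_⟩
    simp only [eval₂_add, eval₂_mul, eval₂_pow, eval₂_X, eval₂_C]
    exact hx'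
  obtain ⟨r, hr⟩ := IsIntegrallyClosed.isIntegral_iff.1 hint
  refine ⟨r, ?_⟩
  apply RingOfIntegers.coe_injective
  show algebraMap (𝓞 F) F (r ^ 3 + a * r + b) = algebraMap (𝓞 F) F 0
  rw [map_zero, map_add, map_add, map_mul, map_pow, hr]
  exact hx'

/-- The size of the roots. -/
theorem root_le {x α β : ℂ} {R : ℝ} (hR : 0 < R) (hα : ‖α‖ ≤ 2 * R ^ 2) (hβ : ‖β‖ ≤ R ^ 3)
    (h : x ^ 3 + α * x + β = 0) : ‖x‖ ≤ 3 * R := by
  by_contra hc
  push Not at hc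
  have h1 : ‖x‖ ^ 3 ≤ ‖α‖ * ‖x‖ + ‖β‖ := by
    have h2 : x ^ 3 = -(α * x + β) := by linear_combination h
    rw [← norm_pow, h2, norm_neg]
    refine (norm_add_le _ _).trans ?_
    rw [norm_mul]
  have h3 : ‖α‖ * ‖x‖ ≤ 2 * R ^ 2 * ‖x‖ := mul_le_mul_of_nonneg_right hα (norm_nonneg _)
  have h4 : 9 * R ^ 2 ≤ ‖x‖ ^ 2 := by nlinarith
  have h5 : 9 * R ^ 2 * ‖x‖ ≤ ‖x‖ ^ 3 := by
    have := mul_le_mul_of_nonneg_right h4 (norm_nonneg x)
    calc 9 * R ^ 2 * ‖x‖ ≤ ‖x‖ ^ 2 * ‖x‖ := this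
      _ = _ := by ring
  have h6 : 0 < R ^ 2 := by positivity
  have h7 : 7 * R ^ 2 * ‖x‖ ≤ R ^ 3 := by nlinarith
  have h8 : 7 * R ^ 2 * (3 * R) < 7 * R ^ 2 * ‖x‖ := by
    apply mul_lt_mul_of_pos_left hc (by positivity)
  nlinarith [pow_pos hR 3]

/-- The number of the curves with a rational point of order two. -/
theorem red_le (F : Type) [Field F] [NumberField F] : ∃ C : ℝ, 0 < C ∧ ∀ B : ℕ, 1 ≤ B →
    ∀ Y : ℝ, Y < 27 * ((B : ℝ) + 1) ^ 6 →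
    ({p : 𝓞 F × 𝓞 F | Crv Y p ∧ ¬ Irreducible (cu (p.1 : F) (p.2 : F))}.ncard : ℝ) ≤
      C * (B : ℝ) ^ (3 * Module.finrank ℚ F) := by
  obtain ⟨-, C, hC, -, hup⟩ := Pool.Agent.N490.PF.pts F
  obtain ⟨d, hd⟩ : ∃ d, d = Module.finrank ℚ F := ⟨_, rfl⟩
  rw [← hd] at hup ⊢
  refine ⟨C ^ 2 * 4 * (2 ^ d * 3 ^ d * 2 ^ (3 * d)), by positivity, fun B hB Y hY => ?_⟩
  have hB1 : (1 : ℝ) ≤ B := by exact_mod_cast hB
  obtain ⟨R, hR⟩ : ∃ R : ℝ, R = (B : ℝ) + 1 := ⟨_, rfl⟩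
  rw [← hR] at hY
  have hR1 : 1 ≤ R := by linarith
  have hR0 : 0 < R := by linarith
  obtain ⟨f1, n1⟩ := hup ⊤ 0 (2 * R ^ 2) top_ne_bot (by positivity)
  obtain ⟨f2, n2⟩ := hup ⊤ 0 (3 * R) top_ne_bot (by positivity)
  rw [Ideal.absNorm_top, Nat.cast_one, div_one] at n1 n2
  have hbd : ∀ p : 𝓞 F × 𝓞 F, Crv Y p → ∀ σ : F →+* ℂ, ‖σ (p.1 : F)‖ ≤ 2 * R ^ 2 ∧
      ‖σ (p.2 : F)‖ ≤ R ^ 3 := by
    intro p hp σ
    constructor
    · have h3 := (hp.ht σ).1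
      refine le_of_pow3 (by positivity) ?_ (norm_nonneg _)
      have h5 : (2 * R ^ 2) ^ 3 = 8 * R ^ 6 := by ring
      rw [h5]
      have h6 : 0 ≤ R ^ 6 := by positivity
      linarith
    · have h3 := (hp.ht σ).2
      refine le_of_pow_le_pow_left₀ two_ne_zero (by positivity) ?_
      have h5 : (R ^ 3) ^ 2 = R ^ 6 := by ring
      rw [h5]
      linarith
  have hex : ∀ p : 𝓞 F × 𝓞 F, ∃ r : 𝓞 F, ¬ Irreducible (cu (p.1 : F) (p.2 : F)) →
      r ^ 3 + p.1 * r + p.2 = 0 := by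
    intro p
    by_cases h : Irreducible (cu (p.1 : F) (p.2 : F))
    · exact ⟨0, fun h' => absurd h h'⟩
    · obtain ⟨r, hr⟩ := exists_root h
      exact ⟨r, fun _ => hr⟩
  choose r hr using hex
  have h3 := Set.ncard_le_ncard_of_injOn (fun p : 𝓞 F × 𝓞 F => (p.1, r p))
    (s := {p : 𝓞 F × 𝓞 F | Crv Y p ∧ ¬ Irreducible (cu (p.1 : F) (p.2 : F))})
    (t := {a : 𝓞 F | a - 0 ∈ (⊤ : Ideal (𝓞 F)) ∧ Bd (a : F) (2 * R ^ 2)} ×ˢ
        {a : 𝓞 F | a - 0 ∈ (⊤ : Ideal (𝓞 F)) ∧ Bd (a : F) (3 * R)})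
    (by
      intro p hp
      obtain ⟨hp1, hp2⟩ := hp
      refine Set.mem_prod.mpr ⟨⟨Submodule.mem_top, ?_⟩, ⟨Submodule.mem_top, ?_⟩⟩
      · exact fun σ => (hbd p hp1 σ).1
      · intro σ
        refine root_le hR0 (hbd p hp1 σ).1 (hbd p hp1 σ).2 ?_
        have h4 := congrArg (fun z : 𝓞 F => σ (algebraMap (𝓞 F) F z)) (hr p hp2)
        simp only [map_add, map_mul, map_pow, map_zero] at h4
        exact h4)
    (by
      intro p hp p' hp' h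
      have h' : (p.1, r p) = (p'.1, r p') := h
      obtain ⟨e1, e2⟩ := Prod.mk.inj h'
      have h4 := hr p hp.2
      have h5 := hr p' hp'.2
      rw [← e2, ← e1] at h5
      refine Prod.ext e1 ?_
      linear_combination h4 - h5)
    (f1.prod f2)
  rw [Set.ncard_prod] at h3
  have h4 : ({p : 𝓞 F × 𝓞 F | Crv Y p ∧ ¬ Irreducible (cu (p.1 : F) (p.2 : F))}.ncard : ℝ) ≤
      ({a : 𝓞 F | a - 0 ∈ (⊤ : Ideal (𝓞 F)) ∧ Bd (a : F) (2 * R ^ 2)}.ncard : ℝ) *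
        ({a : 𝓞 F | a - 0 ∈ (⊤ : Ideal (𝓞 F)) ∧ Bd (a : F) (3 * R)}.ncard : ℝ) := by
    exact_mod_cast h3
  have h5 : (2 * R ^ 2) ^ d + 1 ≤ 2 * (2 * R ^ 2) ^ d := by
    have := one_le_pow₀ (show (1 : ℝ) ≤ 2 * R ^ 2 by nlinarith) (n := d)
    linarith
  have h6 : (3 * R) ^ d + 1 ≤ 2 * (3 * R) ^ d := by
    have := one_le_pow₀ (show (1 : ℝ) ≤ 3 * R by nlinarith) (n := d)
    linarith
  have h7 : R ≤ 2 * B := by linarith
  calc ({p : 𝓞 F × 𝓞 F | Crv Y p ∧ ¬ Irreducible (cu (p.1 : F) (p.2 : F))}.ncard : ℝ) ≤ _ := h4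
    _ ≤ (C * ((2 * R ^ 2) ^ d + 1)) * (C * ((3 * R) ^ d + 1)) :=
        mul_le_mul n1 n2 (Nat.cast_nonneg _) (by positivity)
    _ ≤ (C * (2 * (2 * R ^ 2) ^ d)) * (C * (2 * (3 * R) ^ d)) := by gcongr
    _ = C ^ 2 * 4 * (2 ^ d * 3 ^ d * R ^ (3 * d)) := by
        rw [mul_pow, mul_pow, ← pow_mul]
        have : (3 * d) = 2 * d + d := by ring
        rw [this, pow_add]
        ring
    _ ≤ C ^ 2 * 4 * (2 ^ d * 3 ^ d * (2 * (B : ℝ)) ^ (3 * d)) := by gcongr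
    _ = _ := by
        rw [mul_pow (2 : ℝ)]
        ring

end

end Pool.Agent.H459.AV
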