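import Pool.Agent.H459.AV.Inj
import Pool.Agent.H459.UD.Lld
import Pool.Agent.H459.UD.Sc
import Pool.Agent.H459.UT.Sdt
import Pool.Agent.H459.UT.Par

/-!
# Every Selmer class has a lattice (helper459)
-/

set_option autoImplicit false
set_option linter.all false

open Polynomial IsDedekindDomain Matrix NumberField
open scoped Classical

namespace Pool.Agent.H459.AV

open Pool.Agent.N783.PF
open Pool.Agent.N352.PJ (Mt Typ dd)
open Pool.Agent.N783.PQ (chp Gap Mid Deep LocIm)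
open Pool.Agent.N874.PP (Ev)
open Pool.Agent.N874.JM (LocF)
open Pool.Agent.N78.PF (ev_unit fF_scale)
open Pool.Agent.H459.UF (cu cu_monic cu_deg below lies_below eq_below)
open Pool.Agent.N61.PF (pol pol_natDegree pol_monic pol_coeff0 pol_coeff1 pol_coeff2)

section

variable {F L : Type} [Field F] [NumberField F] [Field L] [NumberField L] [Algebra F L]
  {f : (𝓞 F)[X]} {θ : L}

/-- Parity at the primes which are not bad. -/
theorem ev_all (hG : IsGen 1 f θ) {w : HeightOneSpectrum (𝓞 F)} (h2 : (2 : 𝓞 F) ∉ w.asIdeal)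
    (hsq : dsc 1 f ∉ w.asIdeal ^ 2) {h : F[X]} (h0 : aeval θ h ≠ 0)
    (hN : IsSquare (Algebra.norm F (aeval θ h))) (hl : LocF (w.adicCompletion F) (fF f) h)
    {𝔓 : HeightOneSpectrum (𝓞 L)} (hov : Ov w.asIdeal 𝔓) : Ev 𝔓 (aeval θ h) := by
  have h1w : ((1 : ℕ) : 𝓞 F) ∉ w.asIdeal := by
    intro h1
    apply w.isPrime.ne_top
    rw [Ideal.eq_top_iff_one]
    exact_mod_cast h1
  have hs1 : f.scaleRoots ((1 : ℕ) : 𝓞 F) = f := by
    rw [Nat.cast_one, scaleRoots_one]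
  have key : ∀ 𝔓' : HeightOneSpectrum (𝓞 L), Ov w.asIdeal 𝔓' →
      𝔓'.valuation L (aeval θ (derivative (fF f))) = 1 → Ev 𝔓' (aeval θ h) := by
    intro 𝔓' ho hu
    have hb : below F 𝔓' = w := eq_below ho
    have e1 : ((1 : ℕ) : L) * θ = θ := by rw [Nat.cast_one, one_mul]
    have h3 := ev_unit (D := 1) hG (w := w) (𝔓 := 𝔓') (by rw [← hb]; exact lies_below 𝔓') h2 h1w h hu
      (by rw [hs1]; exact hl) (by rw [e1]; exact h0)
    rwa [e1] at h3
  by_cases cu : 𝔓.valuation L (aeval θ (derivative (fF f))) = 1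
  · exact key 𝔓 hov cu
  · have v1 : 𝔓.valuation L (aeval θ (derivative (fF f))) < 1 :=
      lt_of_le_of_ne (Pool.Agent.N78.PF.val_der hG 𝔓) cu
    obtain ⟨⟨c, hc⟩, hother⟩ := Pool.Agent.H459.UT.ram hG w.isPrime w.ne_bot hsq hov v1
    exact Pool.Agent.H459.UT.par hG w.isPrime w.ne_bot hsq hov hc h0 hN
      fun 𝔓' o' n' => key 𝔓' o' (hother 𝔓' o' n')

/-- Only finitely many primes divide a non-zero element. -/
theorem fin_dvd {d : 𝓞 F} (hd : d ≠ 0) : {w : HeightOneSpectrum (𝓞 F) | d ∈ w.asIdeal}.Finite := by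
  have h1 : Ideal.span {d} ≠ ⊥ := by
    rwa [Ne, Ideal.span_singleton_eq_bot]
  refine (Ideal.finite_factors h1).subset ?_
  intro w hw
  rw [Set.mem_setOf_eq] at hw ⊢
  rw [Ideal.dvd_span_singleton]
  exact hw

/-- **The lattice of a Selmer class.** -/
theorem sel_lat (hG : IsGen 1 f θ) {a b : 𝓞 F} (hf : fF f = cu (16 * (a : F)) (64 * (b : F)))
    {h : F[X]} (h0 : aeval θ h ≠ 0) (hN : IsSquare (Algebra.norm F (aeval θ h)))
    (hl : ∀ w : HeightOneSpectrum (𝓞 F), LocF (w.adicCompletion F) (fF f) h) :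
    ∃ Λ : Submodule (𝓞 F) L, Lat hG (aeval θ h) Λ := by
  have hirr := Pool.Agent.N438.PF.irrF hG
  have hd := Pool.Agent.H459.UT.dsc_ne hG
  obtain ⟨Bw, hBw⟩ : ∃ Bw : HeightOneSpectrum (𝓞 F) → Prop, Bw = fun w =>
    (2 : 𝓞 F) ∈ w.asIdeal ∨ dsc 1 f ∈ w.asIdeal := ⟨_, rfl⟩
  have hfin : {w | Bw w}.Finite := by
    rw [hBw]
    exact (fin_dvd two_ne_zero).union (fin_dvd hd)
  have hnb : ∀ w, ¬ Bw w → (2 : 𝓞 F) ∉ w.asIdeal ∧ dsc 1 f ∉ w.asIdeal ^ 2 := by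
    intro w hw
    rw [hBw] at hw
    push Not at hw
    exact ⟨hw.1, fun h3 => hw.2 (Ideal.pow_le_self two_ne_zero h3)⟩
  obtain ⟨C, hC1, hC2⟩ := Pool.Agent.H459.UT.sd hG Bw hfin (fun w hw => (hnb w hw).2) h0
    (fun 𝔓 hb => by
      have hw : ¬ Bw (below F 𝔓) := fun h3 => hb _ h3 fun x hx =>
        (Pool.Agent.H459.UF.mem_below 𝔓 x).1 hx
      exact ev_all hG (hnb _ hw).1 (hnb _ hw).2 h0 hN (hl _) fun x hx =>
        (Pool.Agent.H459.UF.mem_below 𝔓 x).1 hx)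
    (fun w hw => by
      obtain ⟨lam, h3⟩ := Pool.Agent.H459.UD.ll_pt hG w hf hirr rfl rfl (w.valuation_le_one a)
        (w.valuation_le_one b) h0 (hl w)
      exact ⟨_, lam, Pool.Agent.H459.UD.ug_ga w, h3⟩)
  obtain ⟨Λ, -, h4⟩ := hC1.lat h0
  exact ⟨Λ, h4⟩

end

end Pool.Agent.H459.AV
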