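import Mathlib

/-!
# Project AV2 (helper459): statements
-/

set_option autoImplicit false
set_option linter.all false

open Polynomial IsDedekindDomain NumberField
open scoped Classical

namespace Pool.Agent.H459.AV

/-- The subgroup of the squares. -/
def Sqr (K : Type) [Field K] : Subgroup Kˣ := (powMonoidHom 2 : Kˣ →* Kˣ).range

/-- **S_ISO** (descent by a 2-isogeny). `W : y ^ 2 = x ^ 3 + a x + b` with the point `(r, 0)` of order two, and
`W' : y ^ 2 = x ^ 3 - 6 r x ^ 2 - (3 r ^ 2 + 4 a) x`. If `H₁` (`H₂`) is a group of elements of `K` which contains the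
squares, the `x - r` for the points of `W` and `3 r ^ 2 + a` (the squares, the `x` for the points of `W'` and
`- (3 r ^ 2 + 4 a)`), then `W(K) / 2 W(K)` is represented by at most `[H₁ : squares] * [H₂ : squares]` points.

Proof (classical). Put `A = 3 r`, `B = 3 r ^ 2 + a`, `X = x - r`: the curve is `E : y ^ 2 = X (X ^ 2 + A X + B)`, and
`W' = E' : y ^ 2 = x (x ^ 2 - 2 A x + A ^ 2 - 4 B)`. `φ : E → E'`, `(X, y) ↦ (y ^ 2 / X ^ 2, y (X ^ 2 - B) / X ^ 2)`, and `φ' : E' → E`,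
`(x, y) ↦ (y ^ 2 / (4 x ^ 2), y (x ^ 2 - (A ^ 2 - 4 B)) / (8 x ^ 2))` are homomorphisms (kernels `{0, (0, 0)}`) with `φ' ∘ φ = 2`
and `φ ∘ φ' = 2`. The map `α : E(K) → Kˣ / squares`, `0 ↦ 1`, `(0, 0) ↦ B`, `(X, y) ↦ X` is a homomorphism with kernel
`φ'(E'(K))`, and similarly for `E'`. So `E(K) / φ'(E'(K))` embeds into `H₁ / squares`, `E'(K) / φ(E(K))` embeds into
`H₂ / squares`; if `P i` (`Q j`) are representatives of the first (second) group, then
`P = P i + φ'(Q')`, `Q' = Q j + φ(R)`, `P = P i + φ'(Q j) + 2 R`. (One can avoid that `φ`, `φ'` are homomorphisms as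
follows, if this is easier: only `φ' (φ P) = P + P` and `φ'(Q + Q') = φ'(Q) + φ'(Q')` are used. The library has 2-isogeny
descents in several places: look for `isogeny`, `phi` in `Pool/Graph/INDEX.tsv`.) -/
def S_ISO : Prop := ∀ (K : Type) [Field K] [CharZero K] (a b r : K) (W W' : WeierstrassCurve.Affine K),
  W.a₁ = 0 → W.a₂ = 0 → W.a₃ = 0 → W.a₄ = a → W.a₆ = b →
  W'.a₁ = 0 → W'.a₂ = -6 * r → W'.a₃ = 0 → W'.a₄ = -(3 * r ^ 2 + 4 * a) → W'.a₆ = 0 →
  r ^ 3 + a * r + b = 0 →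
  ∀ H₁ H₂ : Subgroup Kˣ, Sqr K ≤ H₁ → Sqr K ≤ H₂ →
  (∃ u ∈ H₁, (u : K) = 3 * r ^ 2 + a) → (∃ u ∈ H₂, (u : K) = -(3 * r ^ 2 + 4 * a)) →
  (∀ x y : K, W.Nonsingular x y → ∀ u : Kˣ, (u : K) = x - r → u ∈ H₁) →
  (∀ x y : K, W'.Nonsingular x y → ∀ u : Kˣ, (u : K) = x → u ∈ H₂) →
  (Sqr K).relIndex H₁ ≠ 0 → (Sqr K).relIndex H₂ ≠ 0 →
  ∃ T : Finset W.Point, T.card ≤ (Sqr K).relIndex H₁ * (Sqr K).relIndex H₂ ∧
    ∀ P : W.Point, ∃ t ∈ T, ∃ R, P = t + (R + R)

/-- The elements whose valuations are even outside the primes dividing `b`. -/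
def Hb {F : Type} [Field F] [NumberField F] (b : 𝓞 F) : Subgroup Fˣ where
  carrier := {x | ∀ w : HeightOneSpectrum (𝓞 F), b ∉ w.asIdeal →
    ∃ z : F, w.valuation F (x : F) = w.valuation F z ^ 2}
  mul_mem' := by
    intro x y hx hy w hw
    obtain ⟨z, hz⟩ := hx w hw
    obtain ⟨z', hz'⟩ := hy w hw
    exact ⟨z * z', by rw [Units.val_mul, map_mul, map_mul, hz, hz', mul_pow]⟩
  one_mem' := fun w _ => ⟨1, by simp⟩
  inv_mem' := by
    intro x hx w hw
    obtain ⟨z, hz⟩ := hx w hw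
    exact ⟨z⁻¹, by rw [Units.val_inv_eq_inv_val, map_inv₀, map_inv₀, hz, inv_pow]⟩

/-- **S_FS2** (the size of `F(S, 2)`).

Proof. The parities of the valuations at the primes dividing `b` give a homomorphism from `Hb b` to a group with
`2 ^ #{w | b ∈ w}` elements with kernel `Hb 1`, so `[Hb b : squares] ≤ 2 ^ #{w | b ∈ w} [Hb 1 : squares]`. And
`[Hb 1 : squares]` is finite: for `x ∈ Hb 1` the ideal `(x)` is a square `I ^ 2`, the class of `I` has order at most
`2`; if `x, x'` give the same class of `I`, then `x = x' z ^ 2 u` with a unit `u` of `𝓞 F`; there are finitely many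
classes of ideals and units modulo squares (Dirichlet: the unit group is finitely generated). -/
def S_FS2 : Prop := ∀ (F : Type) [Field F] [NumberField F], ∃ C : ℕ, ∀ b : 𝓞 F, b ≠ 0 →
  (Sqr F).relIndex (Hb b) ≠ 0 ∧
  (Sqr F).relIndex (Hb b) ≤ C * 2 ^ {w : HeightOneSpectrum (𝓞 F) | b ∈ w.asIdeal}.ncard

/-- **S_OMG** (the number of prime divisors). `16 ^ ω(b) ≤ C |N(b)|`.

Proof. Each prime `w` dividing `b` with `N(w) ≥ 16` contributes `16 ≤ N(w)`; the finitely many primes with `N(w) < 16`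
contribute at most a constant; and the product of the `N(w)` over the primes dividing `b` divides `|N(b)|`. -/
def S_OMG : Prop := ∀ (F : Type) [Field F] [NumberField F], ∃ C : ℕ, ∀ b : 𝓞 F, b ≠ 0 →
  {w : HeightOneSpectrum (𝓞 F) | b ∈ w.asIdeal}.Finite ∧
  16 ^ {w : HeightOneSpectrum (𝓞 F) | b ∈ w.asIdeal}.ncard ≤ C * Ideal.absNorm (Ideal.span {b})

end Pool.Agent.H459.AV
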